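import Pool.Agent.P.MP_a5fed0_gt.Net

/-! The inductive step: an oscillating band that makes both families of curves nearly parallel. -/

open Set Filter Topology
open scoped ContDiff

namespace Pool.Agent.P.MP_a5fed0_gt

lemma strip {ρ : ℝ} (hρ : 0 < ρ) (x : ℝ) :
    ∃ α, x ≤ α ∧ α ≤ x + 7 * ρ ∧ ∀ s ∈ Icc α (α + 2 * ρ), 1 / 2 ≤ Real.sin (s / ρ) := by
  have hπ := Real.pi_pos
  have hπ' := Real.pi_lt_d2
  set k : ℤ := ⌈(x / ρ - Real.pi / 2 + 1) / (2 * Real.pi)⌉ with hk
  have h1 := Int.le_ceil ((x / ρ - Real.pi / 2 + 1) / (2 * Real.pi))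
  have h2 := Int.ceil_lt_add_one ((x / ρ - Real.pi / 2 + 1) / (2 * Real.pi))
  rw [← hk] at h1 h2
  rw [div_le_iff₀ (by positivity)] at h1
  rw [← sub_lt_iff_lt_add, lt_div_iff₀ (by positivity)] at h2
  have hx : x = ρ * (x / ρ) := by field_simp
  refine ⟨ρ * (k * (2 * Real.pi) + Real.pi / 2 - 1), ?_, ?_, fun s hs => ?_⟩
  · exact hx.le.trans (mul_le_mul_of_nonneg_left (by linarith) hρ.le)
  · have : ρ * (k * (2 * Real.pi) + Real.pi / 2 - 1) ≤ ρ * (x / ρ + 7) :=
      mul_le_mul_of_nonneg_left (by linarith) hρ.le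
    rw [mul_add, ← hx] at this; linarith
  · set r := s / ρ - (k * (2 * Real.pi) + Real.pi / 2) with hr
    have e : s / ρ = r + Real.pi / 2 + k * (2 * Real.pi) := by rw [hr]; ring
    have a1 : k * (2 * Real.pi) + Real.pi / 2 - 1 ≤ s / ρ := by
      rw [le_div_iff₀ hρ]; linarith [hs.1]
    have a2 : s / ρ ≤ k * (2 * Real.pi) + Real.pi / 2 + 1 := by
      rw [div_le_iff₀ hρ]; linarith [hs.2]
    rw [e, Real.sin_add_int_mul_two_pi, Real.sin_add_pi_div_two]
    have := Real.one_sub_sq_div_two_le_cos (x := r)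
    have : r ^ 2 ≤ 1 := by nlinarith
    linarith

lemma disp {y y' W : ℝ → ℝ} (hy : ∀ t, HasDerivAt y (y' t) t) (hb : ∀ t, |y' t| ≤ 1)
    (hW : Monotone W) {t₁ p ρ δ T H c κ : ℝ} (hρ : 0 < ρ) (htp : t₁ ≤ p) (ht : 0 ≤ t₁) (hp : p ≤ T)
    (hδ : 0 ≤ δ) (hδT : δ * T < ρ) (hc : 0 < c) (hκ0 : 0 ≤ κ)
    (hκ : ∀ t ∈ Icc 0 T, κ ≤ W (t + ρ / 2) - W t) (hH : p + y p ≤ H + ρ / 2)
    (hA : ∀ t ∈ Icc t₁ p, 1 / 2 ≤ Real.sin ((t - y t) / ρ) → 0 ≤ y' t)
    (hB : ∀ t ∈ Icc t₁ p, 1 / 2 ≤ Real.sin ((t - y t) / ρ) → c + κ * c / T ≤ W (y t) * W t →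
      t + y t ≤ H → 1 - δ ≤ y' t)
    (hC : ∀ t ∈ Icc t₁ p, c ≤ W (y t) * W t ∧ 0 ≤ W t ∧ W t ≤ T) :
    (p - y p) - (t₁ - y t₁) ≤ 9 * ρ := by
  by_contra hcon
  push Not at hcon
  have hX : ∀ t, HasDerivAt (fun t => t - y t) (1 - y' t) t := fun t => (hasDerivAt_id t).fun_sub (hy t)
  have hS : ∀ t, HasDerivAt (fun t => t + y t) (1 + y' t) t := fun t => (hasDerivAt_id t).fun_add (hy t)
  have Xm : ∀ a b, a ≤ b → a - y a ≤ b - y b := fun a b hab => by
    have := mvt_le hX hab (l := 0) (fun t _ => by linarith [(abs_le.1 (hb t)).2])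
    linarith
  have Sm : ∀ a b, a ≤ b → a + y a ≤ b + y b := fun a b hab => by
    have := mvt_le hS hab (l := 0) (fun t _ => by linarith [(abs_le.1 (hb t)).1])
    linarith
  have Xc : Continuous fun t => t - y t := continuous_iff_continuousAt.2 fun t => (hX t).continuousAt
  obtain ⟨α, a1, a2, hα⟩ := strip hρ (t₁ - y t₁)
  obtain ⟨ta, hta, ea⟩ := intermediate_value_Icc htp Xc.continuousOn
    (show α ∈ Icc (t₁ - y t₁) (p - y p) from ⟨a1, by linarith⟩)
  simp only at ea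
  obtain ⟨td, htd, ed⟩ := intermediate_value_Icc hta.2 Xc.continuousOn
    (show α + 2 * ρ ∈ Icc (ta - y ta) (p - y p) from ⟨by linarith, by linarith⟩)
  simp only at ed
  have sub : ∀ t ∈ Icc ta td, t ∈ Icc t₁ p := fun t h => ⟨hta.1.trans h.1, h.2.trans htd.2⟩
  have hsin : ∀ t ∈ Icc ta td, 1 / 2 ≤ Real.sin ((t - y t) / ρ) := fun t h =>
    hα _ ⟨by linarith [Xm _ _ h.1], by linarith [Xm _ _ h.2]⟩
  have ym : ∀ a b, ta ≤ a → a ≤ b → b ≤ td → y a ≤ y b := fun a b h1 h2 h3 => by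
    have := mvt_le hy h2 (l := 0) (fun t h => hA t (sub t ⟨h1.trans h.1, h.2.trans h3⟩)
      (hsin t ⟨h1.trans h.1, h.2.trans h3⟩))
    linarith
  have gap : 2 * ρ ≤ td - ta := by linarith [ym ta td le_rfl htd.1 le_rfl]
  have hT : 0 < T := by linarith [hta.1, htd.2]
  obtain ⟨c1, c2, c3⟩ := hC ta hta
  have c4 : c / T ≤ W (y ta) := by
    rw [div_le_iff₀ hT]
    have : 0 ≤ W (y ta) := by
      by_contra hn
      nlinarith [not_le.1 hn]
    nlinarith
  have c5 : 0 < c / T := div_pos hc hT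
  have key := mvt_le hy (a := ta + ρ / 2) (b := td - ρ / 2) (l := 1 - δ) (by linarith)
    (fun t h => by
      have h' : t ∈ Icc ta td := ⟨by linarith [h.1], by linarith [h.2]⟩
      refine hB t (sub t h') (hsin t h') ?_ ?_
      · have b1 : W (y ta) ≤ W (y t) := hW (ym _ _ le_rfl h'.1 h'.2)
        have b2 : W (ta + ρ / 2) ≤ W t := hW h.1
        have b3 := hκ ta ⟨ht.trans hta.1, hta.2.trans hp⟩
        have b4 : W (y ta) * (W ta + κ) ≤ W (y t) * W t :=
          mul_le_mul b1 (by linarith) (by linarith) (by linarith)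
        have b5 : κ * (c / T) ≤ κ * W (y ta) := mul_le_mul_of_nonneg_left c4 hκ0
        rw [mul_div_assoc]
        linarith
      · have b1 := ym t td h'.1 h'.2 le_rfl
        have b2 := Sm td p htd.2
        linarith [h.2])
  have b1 := ym ta (ta + ρ / 2) le_rfl (by linarith) (by linarith)
  have b2 := ym (td - ρ / 2) td (by linarith) (by linarith) le_rfl
  have b3 : δ * (td - ρ / 2 - (ta + ρ / 2)) ≤ δ * T :=
    mul_le_mul_of_nonneg_left (by linarith [hta.1, htd.2]) hδ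
  linarith

/-- the oscillating profile -/
noncomputable def osc (ρ δ x : ℝ) : ℝ :=
  (1 - δ) * (Real.smoothTransition (2 * Real.sin (x / ρ)) -
    Real.smoothTransition (-(2 * Real.sin (x / ρ))))

lemma osc_neg (ρ δ x : ℝ) : osc ρ δ (-x) = -osc ρ δ x := by
  simp only [osc, neg_div, Real.sin_neg, mul_neg, neg_neg]; ring

lemma osc_abs (ρ : ℝ) {δ : ℝ} (h1 : δ ≤ 1) (x : ℝ) : |osc ρ δ x| ≤ 1 - δ := by
  rw [osc, abs_mul, abs_of_nonneg (by linarith)]
  refine mul_le_of_le_one_right (by linarith) (abs_le.2 ⟨?_, ?_⟩) <;>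
  linarith [Real.smoothTransition.nonneg (2 * Real.sin (x / ρ)),
    Real.smoothTransition.le_one (2 * Real.sin (x / ρ)),
    Real.smoothTransition.nonneg (-(2 * Real.sin (x / ρ))),
    Real.smoothTransition.le_one (-(2 * Real.sin (x / ρ)))]

lemma osc_eq (ρ δ : ℝ) {x : ℝ} (h : 1 / 2 ≤ Real.sin (x / ρ)) : osc ρ δ x = 1 - δ := by
  rw [osc, Real.smoothTransition.one_of_one_le (by linarith),
    Real.smoothTransition.zero_of_nonpos (by linarith)]; ring

lemma osc_smooth (ρ δ : ℝ) : ContDiff ℝ ∞ (osc ρ δ) := by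
  have h : ContDiff ℝ ∞ fun x : ℝ => 2 * Real.sin (x / ρ) :=
    contDiff_const.mul (Real.contDiff_sin.comp (contDiff_id.div_const _))
  exact contDiff_const.mul ((Real.smoothTransition.contDiff.comp h).sub
    (Real.smoothTransition.contDiff.comp h.neg))

/-- the cut-off of the band -/
noncomputable def cut (V : ℝ × ℝ → ℝ) (c η H ρ : ℝ) (z : ℝ × ℝ) : ℝ :=
  Real.smoothTransition ((NN V z - c) / η) * (Real.smoothTransition (2 * (z.1 + z.2)) *
    Real.smoothTransition ((H + ρ / 2 - (z.1 + z.2)) / (ρ / 2)))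

lemma cut_mem (V : ℝ × ℝ → ℝ) (c η H ρ : ℝ) (z : ℝ × ℝ) :
    0 ≤ cut V c η H ρ z ∧ cut V c η H ρ z ≤ 1 :=
  ⟨mul_nonneg (Real.smoothTransition.nonneg _)
    (mul_nonneg (Real.smoothTransition.nonneg _) (Real.smoothTransition.nonneg _)),
   mul_le_one₀ (Real.smoothTransition.le_one _)
    (mul_nonneg (Real.smoothTransition.nonneg _) (Real.smoothTransition.nonneg _))
    (mul_le_one₀ (Real.smoothTransition.le_one _) (Real.smoothTransition.nonneg _)
      (Real.smoothTransition.le_one _))⟩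

lemma cut_ne {V : ℝ × ℝ → ℝ} {c η H ρ : ℝ} (hη : 0 < η) (hρ : 0 < ρ) {z : ℝ × ℝ}
    (h : cut V c η H ρ z ≠ 0) : c < NN V z ∧ 0 < z.1 + z.2 ∧ z.1 + z.2 < H + ρ / 2 := by
  simp only [cut, ne_eq, mul_eq_zero, not_or, Real.smoothTransition.zero_iff_nonpos, not_le] at h
  obtain ⟨h1, h2, h3⟩ := h
  have := (div_pos_iff_of_pos_right hη).1 h1
  have := (div_pos_iff_of_pos_right (half_pos hρ)).1 h3
  exact ⟨by linarith, by linarith, by linarith⟩

lemma cut_one {V : ℝ × ℝ → ℝ} {c η H ρ : ℝ} (hη : 0 < η) (hρ : 0 < ρ) {z : ℝ × ℝ}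
    (h1 : c + η ≤ NN V z) (h2 : 1 / 2 ≤ z.1 + z.2) (h3 : z.1 + z.2 ≤ H) : cut V c η H ρ z = 1 := by
  rw [cut, Real.smoothTransition.one_of_one_le ((one_le_div hη).2 (by linarith)),
    Real.smoothTransition.one_of_one_le (by linarith),
    Real.smoothTransition.one_of_one_le ((one_le_div (half_pos hρ)).2 (by linarith))]
  norm_num

lemma half_le_of_sq {x : ℝ} (h0 : 0 ≤ x) (h : 1 / 2 ≤ x * x) : 1 / 2 ≤ x := by
  by_contra hn
  nlinarith [not_le.1 hn]

/-- one stage of the construction -/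
structure St where
  m : ℝ × ℝ → ℝ
  V : ℝ × ℝ → ℝ
  c : ℝ
  R : ℝ
  sym : Sym m V
  msm : ContDiff ℝ ∞ m
  c1 : 1 / 2 ≤ c
  c2 : c < 1
  supp : ∀ z, m z ≠ 0 → |NN V z| < c
  bd : ∀ z : ℝ × ℝ, m z ≠ 0 → |z.1| + |z.2| ≤ R

lemma compact_of_bd {m : ℝ × ℝ → ℝ} {R : ℝ} (h : ∀ z : ℝ × ℝ, m z ≠ 0 → |z.1| + |z.2| ≤ R) :
    HasCompactSupport m := by
  refine HasCompactSupport.intro (isCompact_closedBall (0 : ℝ × ℝ) R) fun z hz => ?_
  by_contra hne
  apply hz
  have := h z hne
  rw [mem_closedBall_zero_iff, Prod.norm_def, Real.norm_eq_abs, Real.norm_eq_abs]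
  exact max_le (by linarith [abs_nonneg z.2]) (by linarith [abs_nonneg z.1])

theorem step (S : St) (H₀ : ℝ) : ∃ S' : St, (1 + S.c) / 2 ≤ S'.c ∧
    (∀ z, |NN S.V z| ≤ S.c → S'.V z = S.V z) ∧
    ∀ z : ℝ × ℝ, |z.1| + |z.2| ≤ H₀ → |NN S'.V z| ≤ S'.c := by
  obtain ⟨m, V, c, R, h, msm, c1, c2, supp, bd⟩ := S
  simp only
  set H := |H₀| + |R| with hH
  set T := H + 1 with hT
  have H0 : 0 ≤ H := by positivity
  have T0 : 0 < T := by positivity
  set W : ℝ → ℝ := fun q => V (T, q) with hW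
  have Wm : StrictMono W := h.toIsInt.mono T
  have Wc : Continuous W := h.smooth.continuous.comp (by fun_prop)
  -- choice of the parameters
  obtain ⟨ρ, hρ, hρ1, hρu⟩ : ∃ ρ : ℝ, 0 < ρ ∧ ρ ≤ 1 ∧ ∀ s ∈ Icc 0 T, ∀ t ∈ Icc 0 T,
      t ≤ s + 18 * ρ → W t ≤ W s + (1 - c) / (2 * T) := by
    have uc := (isCompact_Icc (a := 0) (b := T)).uniformContinuousOn_of_continuous Wc.continuousOn
    obtain ⟨d, d0, hd⟩ := Metric.uniformContinuousOn_iff.1 uc ((1 - c) / (2 * T))
      (div_pos (by linarith) (by positivity))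
    refine ⟨min 1 (d / 19), by positivity, min_le_left _ _, fun s hs t ht hst => ?_⟩
    rcases le_total t s with h1 | h1
    · have := Wm.monotone h1
      have : 0 < (1 - c) / (2 * T) := div_pos (by linarith) (by positivity)
      linarith
    · have := hd t ht s hs (by
        rw [Real.dist_eq, abs_of_nonneg (by linarith)]; linarith [min_le_right 1 (d / 19)])
      rw [Real.dist_eq] at this
      linarith [le_abs_self (W t - W s)]
  obtain ⟨κ, κ0, hκ⟩ : ∃ κ : ℝ, 0 < κ ∧ ∀ t ∈ Icc 0 T, κ ≤ W (t + ρ / 2) - W t := by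
    obtain ⟨t₀, -, h0⟩ := (isCompact_Icc (a := 0) (b := T)).exists_isMinOn ⟨0, le_rfl, T0.le⟩
      (f := fun t => W (t + ρ / 2) - W t) (Continuous.continuousOn (by fun_prop))
    exact ⟨_, sub_pos.2 (Wm (by linarith)), fun t ht => h0 ht⟩
  set η := κ * c / T with hη
  have η0 : 0 < η := by have : 0 < c := by linarith
                        positivity
  set δ := ρ / (2 * T) with hδ
  have δ0 : 0 < δ := by positivity
  have δT : δ * T < ρ := by rw [hδ]; field_simp; norm_num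
  have δ1 : δ ≤ 1 := by rw [hδ, div_le_one (by positivity)]; linarith
  set b : ℝ × ℝ → ℝ := fun z => cut V c η H ρ z * osc ρ δ (z.1 - z.2) with hb
  have bsm : ContDiff ℝ ∞ b := by
    refine ContDiff.mul (ContDiff.mul ?_ (ContDiff.mul ?_ ?_))
      ((osc_smooth ρ δ).comp (contDiff_fst.sub contDiff_snd))
    · exact Real.smoothTransition.contDiff.comp ((h.N_smooth.sub contDiff_const).div_const _)
    · exact Real.smoothTransition.contDiff.comp (contDiff_const.mul (contDiff_fst.add contDiff_snd))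
    · exact Real.smoothTransition.contDiff.comp
        ((contDiff_const.sub (contDiff_fst.add contDiff_snd)).div_const _)
  have bsw : ∀ p q, b (q, p) = -b (p, q) := by
    intro p q
    simp only [hb, cut, NN_swap V p q, add_comm q p]
    rw [← neg_sub p q, osc_neg]; ring
  have bne : ∀ z, b z ≠ 0 → c < NN V z ∧ 0 < z.1 + z.2 ∧ z.1 + z.2 < H + ρ / 2 :=
    fun z hz => cut_ne η0 hρ (left_ne_zero_of_mul hz)
  have babs : ∀ z, |b z| < 1 := fun z => by
    have h1 := cut_mem V c η H ρ z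
    have h2 := osc_abs ρ δ1 (z.1 - z.2)
    simp only [hb, abs_mul, abs_of_nonneg h1.1]
    nlinarith [abs_nonneg (osc ρ δ (z.1 - z.2))]
  set m' : ℝ × ℝ → ℝ := fun z =>
    m z + b z - b (-z.1, z.2) - b (z.1, -z.2) + b (-z.1, -z.2) with hm'
  have m'sm : ContDiff ℝ ∞ m' :=
    (((msm.add bsm).sub (bsm.comp (contDiff_fst.neg.prodMk contDiff_snd))).sub
      (bsm.comp (contDiff_fst.prodMk contDiff_snd.neg))).add
      (bsm.comp (contDiff_fst.neg.prodMk contDiff_snd.neg))
  have m'o : ∀ p q, m' (-p, q) = -m' (p, q) := fun p q => by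
    simp only [hm', h.odd, neg_neg]; ring
  have m'o2 : ∀ p q, m' (p, -q) = -m' (p, q) := fun p q => by
    simp only [hm', h.odd2, neg_neg]; ring
  have m's : ∀ p q, m' (q, p) = -m' (p, q) := fun p q => by
    simp only [hm', h.swap p q, bsw p q, bsw p (-q), bsw (-p) q, bsw (-p) (-q)]; ring
  have m'Q : ∀ p q, 0 ≤ p → 0 ≤ q → m' (p, q) = m (p, q) + b (p, q) := by
    intro p q hp hq
    have n0 := h.N_nonneg hp hq
    have e1 : b (-p, q) = 0 := by
      by_contra hn
      have := (bne _ hn).1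
      rw [h.N_neg1] at this; linarith
    have e2 : b (p, -q) = 0 := by
      by_contra hn
      have := (bne _ hn).1
      rw [h.N_neg2] at this; linarith
    have e3 : b (-p, -q) = 0 := by
      by_contra hn
      have := (bne _ hn).2.1
      simp only at this; linarith
    simp only [hm', e1, e2, e3]; ring
  have mz : ∀ z, c ≤ NN V z → m z = 0 := fun z hz => by
    by_contra hn
    linarith [supp z hn, le_abs_self (NN V z)]
  have m'lt : ∀ z, |m' z| < 1 := by
    rintro ⟨p, q⟩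
    rw [abs_red m'o m'o2, m'Q _ _ (abs_nonneg _) (abs_nonneg _)]
    by_cases hn : b (|p|, |q|) = 0
    · rw [hn, add_zero]; exact h.lt _
    · rw [mz _ (bne _ hn).1.le, zero_add]; exact babs _
  have m'bd : ∀ z : ℝ × ℝ, m' z ≠ 0 → |z.1| + |z.2| ≤ H + ρ / 2 := by
    rintro ⟨p, q⟩ hz
    rw [← abs_ne_zero, abs_red m'o m'o2, m'Q _ _ (abs_nonneg _) (abs_nonneg _), abs_ne_zero] at hz
    by_cases hn : b (|p|, |q|) = 0
    · rw [hn, add_zero] at hz
      have := bd _ hz
      simp only [abs_abs] at this ⊢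
      linarith [le_abs_self R, abs_nonneg H₀]
    · exact (bne _ hn).2.2.le
  have m'eq : ∀ z, |NN V z| ≤ c → m' z = m z := by
    rintro ⟨p, q⟩ hz
    have e : ∀ w, |NN V w| ≤ c → b w = 0 := fun w hw => by
      by_contra hn
      linarith [(bne _ hn).1, le_abs_self (NN V w)]
    simp only [hm', e _ hz, e (-p, q) (by rwa [h.N_neg1, abs_neg]),
      e (p, -q) (by rwa [h.N_neg2, abs_neg]),
      e (-p, -q) (by rwa [h.N_neg1, h.N_neg2, neg_neg])]
    ring
  obtain ⟨V', hV'⟩ := exists_isInt m'sm (compact_of_bd m'bd) (fun z => (m'lt z).le)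
  have h' : Sym m' V' := ⟨hV', m'lt, m'o, m's⟩
  have agr := h.agree h' m'eq
  -- tracing a new curve back to the old region
  have trace : ∀ p q, 0 ≤ p → 0 ≤ q → p + q ≤ H + ρ / 2 → c ≤ NN V (p, q) →
      ∃ s r, 0 ≤ s ∧ 0 ≤ r ∧ s + r ≤ T ∧ W r * W s = c ∧ W r ≤ T ∧ V' (p, q) = W r ∧
        s - r ≤ p - q ∧ (p - q) - (s - r) ≤ 9 * ρ := by
    intro p q hp hq hpq hN
    obtain ⟨y, h0, hy⟩ := hV'.sol p q
    have yc : Continuous y := continuous_iff_continuousAt.2 fun t => (hy t).continuousAt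
    have e := hV'.val hy
    have e1 : ∀ t, V' (t, y t) = V' (p, q) := fun t => by rw [e t, ← e p, h0]
    have y0 : ∀ t, 0 ≤ y t := fun t => h'.nonneg_of_V (by rw [e1]; exact h'.V_nonneg _ hq)
    have Gc : Continuous fun t => NN V (t, y t) := h.N_smooth.continuous.comp (by fun_prop)
    have hK : IsCompact {t ∈ Icc 0 p | NN V (t, y t) = c} :=
      isCompact_Icc.inter_right (isClosed_eq Gc continuous_const)
    have hne : {t ∈ Icc 0 p | NN V (t, y t) = c}.Nonempty := by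
      obtain ⟨t, ht, et⟩ := intermediate_value_Icc hp Gc.continuousOn
        (show c ∈ Icc (NN V (0, y 0)) (NN V (p, y p)) from
          ⟨by simp only [NN, h.V_zero, mul_zero]; linarith, by rwa [h0]⟩)
      exact ⟨t, ht, et⟩
    obtain ⟨s, ⟨hs, es⟩, hmax⟩ := hK.exists_isGreatest hne
    have ge : ∀ t ∈ Icc s p, c ≤ NN V (t, y t) := by
      intro t ht
      by_contra hn
      obtain ⟨t', ht', et⟩ := intermediate_value_Icc ht.2 Gc.continuousOn
        (show c ∈ Icc (NN V (t, y t)) (NN V (p, y p)) from ⟨(not_le.1 hn).le, by rwa [h0]⟩)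
      have h1 : t' ≤ s := hmax ⟨⟨hs.1.trans (ht.1.trans ht'.1), ht'.2⟩, et⟩
      have h2 : t = s := le_antisymm (ht'.1.trans h1) ht.1
      exact hn (by rw [h2, es])
    have sT : ∀ t, t ≤ p → t + y t ≤ T := fun t ht => by
      have := mvt_le (fun t => (hasDerivAt_id t).fun_add (hy t)) ht (l := 0)
        (fun t _ => by linarith [(abs_lt.1 (m'lt (t, y t))).1])
      simp only [id, h0] at this
      linarith
    have z1 : ∀ t ∈ Icc s p, W (y t) = V (t, y t) := fun t ht =>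
      h.zone supp (y0 t) (ge t ht) (by linarith [sT t ht.2, y0 t])
    have z2 : ∀ t ∈ Icc s p, W t = V (y t, t) := fun t ht =>
      h.zone supp (hs.1.trans ht.1) (by rw [NN_swap]; exact ge t ht)
        (by linarith [sT t ht.2, hs.1, ht.1])
    have z3 : ∀ t ∈ Icc s p, W (y t) * W t = NN V (t, y t) := fun t ht => by
      rw [z1 t ht, z2 t ht]; rfl
    have mb : ∀ t ∈ Icc s p, m' (t, y t) = b (t, y t) := fun t ht => by
      rw [m'Q _ _ (hs.1.trans ht.1) (y0 t), mz _ (ge t ht), zero_add]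
    have hsp : s ∈ Icc s p := ⟨le_rfl, hs.2⟩
    refine ⟨s, y s, hs.1, y0 s, sT s hs.2, by rw [z3 s hsp, es], ?_, ?_, ?_, ?_⟩
    · rw [z1 s hsp]; exact (h.V_le hs.1).trans (sT s hs.2)
    · rw [← e1 s, z1 s hsp]
      exact agr _ (by rw [es, abs_of_nonneg (by linarith)])
    · have := mvt_le (fun t => (hasDerivAt_id t).fun_sub (hy t)) hs.2 (l := 0)
        (fun t _ => by linarith [(abs_lt.1 (m'lt (t, y t))).2])
      simp only [id, h0] at this
      linarith
    · rw [← h0]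
      refine disp (c := c) (H := H) hy (fun t => (m'lt _).le) Wm.monotone hρ hs.2 hs.1 (by linarith) δ0.le δT
        (by linarith) κ0.le hκ (by rwa [h0]) (fun t ht hsin => ?_) (fun t ht hsin h1 h2 => ?_)
        (fun t ht => ⟨by rw [z3 t ht]; exact ge t ht, ?_, ?_⟩)
      · rw [mb t ht]
        simp only [hb, osc_eq ρ δ hsin]
        exact mul_nonneg (cut_mem _ _ _ _ _ _).1 (by linarith)
      · rw [mb t ht]
        simp only [hb, osc_eq ρ δ hsin]
        rw [cut_one η0 hρ (by rwa [← z3 t ht]) ?_ h2, one_mul]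
        have t0 := hs.1.trans ht.1
        have a1 := h.V_le (q := y t) t0
        have a2 := h.V_le (q := t) (y0 t)
        have a3 := h.V_nonneg t (y0 t)
        have a4 := h.V_nonneg (y t) t0
        have a5 : c ≤ V (t, y t) * V (y t, t) := ge t ht
        simp only
        have a6 := mul_le_mul a1 a2 a4 (by linarith [y0 t])
        have a7 : 0 ≤ t + y t := by linarith [y0 t]
        rw [add_comm (y t) t] at a6
        exact half_le_of_sq a7 (c1.trans (a5.trans a6))
      · rw [z2 t ht]; exact h.V_nonneg _ (hs.1.trans ht.1)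
      · rw [z2 t ht]; linarith [h.V_le (q := t) (y0 t), sT t ht.2]
  have est : ∀ z : ℝ × ℝ, |z.1| + |z.2| ≤ H + ρ / 2 → |NN V' z| ≤ (1 + c) / 2 := by
    rintro ⟨p, q⟩ hz
    rw [h'.N_abs]
    simp only at hz
    generalize hp : |p| = p' at hz
    generalize hq : |q| = q' at hz
    have p0 : 0 ≤ p' := hp ▸ abs_nonneg _
    have q0 : 0 ≤ q' := hq ▸ abs_nonneg _
    rcases le_total (NN V (p', q')) c with hN | hN
    · have n0 := h.N_nonneg p0 q0
      have a1 := agr (p', q') (by rwa [abs_of_nonneg n0])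
      have a2 := agr (q', p') (by rwa [NN_swap, abs_of_nonneg n0])
      have : NN V' (p', q') = NN V (p', q') := by simp only [NN, a1, a2]
      linarith
    obtain ⟨s, r, s0, r0, sr, e, rT, v, d1, d2⟩ := trace p' q' p0 q0 hz hN
    obtain ⟨s', r', s0', r0', sr', e', rT', v', d1', d2'⟩ := trace q' p' q0 p0 (by linarith)
      (by rwa [NN_swap])
    have W0 : ∀ t, 0 ≤ t → 0 ≤ W t := fun t ht => h.V_nonneg _ ht
    have le : r' ≤ s + 18 * ρ := by
      by_contra hn
      push Not at hn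
      have h1 : W s < W r' := Wm (by linarith)
      have h2 : W r ≤ W s' := Wm.monotone (by linarith)
      have h3 : 0 < W r := by
        rcases (W0 r r0).eq_or_lt with h4 | h4
        · rw [← h4, zero_mul] at e; linarith
        · exact h4
      have h4 : W r * W s < W r * W r' := mul_lt_mul_of_pos_left h1 h3
      have h5 : W r' * W r ≤ W r' * W s' := mul_le_mul_of_nonneg_left h2 (W0 r' r0')
      rw [mul_comm] at h5
      linarith
    have h5 := hρu s ⟨s0, by linarith⟩ r' ⟨r0', by linarith⟩ le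
    have h6 : NN V' (p', q') = W r * W r' := by simp only [NN, v, v']
    have h7 : W r * W r' ≤ W r * (W s + (1 - c) / (2 * T)) := mul_le_mul_of_nonneg_left h5 (W0 r r0)
    have h8 : W r * ((1 - c) / (2 * T)) ≤ T * ((1 - c) / (2 * T)) :=
      mul_le_mul_of_nonneg_right rT (div_nonneg (by linarith) (by positivity))
    have h9 : T * ((1 - c) / (2 * T)) = (1 - c) / 2 := by field_simp
    linarith
  refine ⟨⟨m', V', (3 + c) / 4, H + ρ / 2, h', m'sm, by linarith, by linarith,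
    fun z hz => by linarith [est z (m'bd z hz)], m'bd⟩, by simp only; linarith, agr, fun z hz => ?_⟩
  have := est z (by linarith [le_abs_self H₀, abs_nonneg R])
  simp only; linarith

end Pool.Agent.P.MP_a5fed0_gt
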