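import Mathlib

/-! Definitions for diagonal metrics `E du^2 + G dv^2` on the open unit disc. -/

namespace Pool.Agent.P.MP_a5fed0_gt

/-- The open unit disc `u^2 + v^2 < 1`. -/
def disc : Set (ℝ × ℝ) := {z | z.1 ^ 2 + z.2 ^ 2 < 1}

/-- Derivative in the coordinate `u`. -/
noncomputable def du (f : ℝ × ℝ → ℝ) (z : ℝ × ℝ) : ℝ := fderiv ℝ f z (1, 0)

/-- Derivative in the coordinate `v`. -/
noncomputable def dv (f : ℝ × ℝ → ℝ) (z : ℝ × ℝ) : ℝ := fderiv ℝ f z (0, 1)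

/-- Gaussian curvature of `E du^2 + G dv^2` (classical formula in orthogonal coordinates). -/
noncomputable def gaussCurv (E G : ℝ × ℝ → ℝ) (z : ℝ × ℝ) : ℝ :=
  -(1 / (2 * √(E z * G z))) *
    (dv (fun w => dv E w / √(E w * G w)) z + du (fun w => du G w / √(E w * G w)) z)

/-- Length of the path `γ` on `[0, 1]` for the metric `E du^2 + G dv^2`. -/
noncomputable def pathLength (E G : ℝ × ℝ → ℝ) (γ : ℝ → ℝ × ℝ) : ℝ :=
  ∫ t in (0:ℝ)..1, √(E (γ t) * (deriv γ t).1 ^ 2 + G (γ t) * (deriv γ t).2 ^ 2)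

/-- Induced length distance: infimum of the lengths of `C^1` paths in the disc from `P` to `Q`. -/
noncomputable def lengthDist (E G : ℝ × ℝ → ℝ) (P Q : ℝ × ℝ) : ℝ :=
  sInf {L | ∃ γ : ℝ → ℝ × ℝ, ContDiff ℝ 1 γ ∧ (∀ t ∈ Set.Icc (0:ℝ) 1, γ t ∈ disc) ∧
    γ 0 = P ∧ γ 1 = Q ∧ L = pathLength E G γ}

end Pool.Agent.P.MP_a5fed0_gt
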