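import Mathlib

/-! Smooth first integrals of a scalar ODE `y' = m (t, y)` in the plane. -/

open Set Filter Topology
open scoped ContDiff

namespace Pool.Agent.P.MP_a5fed0_gt

/-- second directional derivative -/
noncomputable def d2 (g : ℝ × ℝ → ℝ) (z : ℝ × ℝ) : ℝ := fderiv ℝ g z (0, 1)

/-- averaged slope in the second variable -/
noncomputable def sl (g : ℝ × ℝ → ℝ) (t x y : ℝ) : ℝ :=
  ∫ τ in (0:ℝ)..1, d2 g (t, x + τ * (y - x))

lemma cara {f E : ℝ → ℝ} {a : ℝ} (hE : ContinuousAt E a) (h : ∀ b, f b - f a = (b - a) * E b) :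
    HasDerivAt f (E a) a := by
  rw [hasDerivAt_iff_tendsto_slope]
  refine (hE.tendsto.mono_left nhdsWithin_le_nhds).congr' ?_
  filter_upwards [self_mem_nhdsWithin] with b hb
  have : b - a ≠ 0 := sub_ne_zero.2 hb
  rw [slope_def_field, h b]; field_simp

lemma joint {f f₁ f₂ : ℝ × ℝ → ℝ} (c₁ : Continuous f₁) (c₂ : Continuous f₂)
    (h₁ : ∀ t a, HasDerivAt (fun s => f (s, a)) (f₁ (t, a)) t)
    (h₂ : ∀ t a, HasDerivAt (fun b => f (t, b)) (f₂ (t, a)) a) (z : ℝ × ℝ) :
    HasFDerivAt f (f₁ z • ContinuousLinearMap.fst ℝ ℝ ℝ + f₂ z • ContinuousLinearMap.snd ℝ ℝ ℝ) z := by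
  have := hasStrictFDerivAt_uncurry_coprod (𝕜 := ℝ) (u := z) (f := fun s a => f (s, a))
    (f₁ := fun s a => ContinuousLinearMap.toSpanSingleton ℝ (f₁ (s, a)))
    (f₂ := fun s a => ContinuousLinearMap.toSpanSingleton ℝ (f₂ (s, a)))
    (Eventually.of_forall fun v => (h₁ v.1 v.2).hasFDerivAt)
    (Eventually.of_forall fun v => (h₂ v.1 v.2).hasFDerivAt)
    (((ContinuousLinearMap.toSpanSingletonCLE (𝕜 := ℝ) (E := ℝ)).continuous.comp c₁).continuousAt)
    (((ContinuousLinearMap.toSpanSingletonCLE (𝕜 := ℝ) (E := ℝ)).continuous.comp c₂).continuousAt)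
  refine this.hasFDerivAt.congr_fderiv ?_
  ext <;> simp [Function.HasUncurry.uncurry]

lemma joint_smooth {n : ℕ} {f f₁ f₂ : ℝ × ℝ → ℝ} (c₁ : ContDiff ℝ n f₁) (c₂ : ContDiff ℝ n f₂)
    (h₁ : ∀ t a, HasDerivAt (fun s => f (s, a)) (f₁ (t, a)) t)
    (h₂ : ∀ t a, HasDerivAt (fun b => f (t, b)) (f₂ (t, a)) a) :
    ContDiff ℝ (n + 1 : ℕ) f := by
  have H := joint c₁.continuous c₂.continuous h₁ h₂
  rw [Nat.cast_succ, contDiff_succ_iff_hasFDerivAt]
  exact ⟨_, (c₁.smul contDiff_const).add (c₂.smul contDiff_const), H⟩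

lemma hasDerivAt_d2 {g : ℝ × ℝ → ℝ} (hg : Differentiable ℝ g) (t x : ℝ) :
    HasDerivAt (fun y => g (t, y)) (d2 g (t, x)) x := by
  have h1 : HasDerivAt (fun y : ℝ => ((t, y) : ℝ × ℝ)) (0, 1) x :=
    (hasDerivAt_const x t).prodMk (hasDerivAt_id x)
  exact (hg (t, x)).hasFDerivAt.comp_hasDerivAt x h1

lemma contDiff_d2 {n : ℕ} {g : ℝ × ℝ → ℝ} (hg : ContDiff ℝ (n + 1 : ℕ) g) : ContDiff ℝ n (d2 g) := by
  have : ContDiff ℝ n (fderiv ℝ g) := hg.fderiv_right (by simp)
  exact this.clm_apply contDiff_const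

lemma sl_cont {g : ℝ × ℝ → ℝ} (hg : Continuous (d2 g)) :
    Continuous fun p : ℝ × ℝ × ℝ => sl g p.1 p.2.1 p.2.2 := by
  unfold sl
  apply intervalIntegral.continuous_parametric_intervalIntegral_of_continuous'
  exact hg.comp (by fun_prop : Continuous fun q : (ℝ × ℝ × ℝ) × ℝ =>
    (q.1.1, q.1.2.1 + q.2 * (q.1.2.2 - q.1.2.1)))

lemma sl_self (g : ℝ × ℝ → ℝ) (t x : ℝ) : sl g t x x = d2 g (t, x) := by simp [sl]

lemma sl_eq {g : ℝ × ℝ → ℝ} (hd : Differentiable ℝ g) (hg : Continuous (d2 g)) (t x y : ℝ) :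
    g (t, y) - g (t, x) = (y - x) * sl g t x y := by
  have h : ∀ τ ∈ uIcc (0:ℝ) 1, HasDerivAt (fun τ : ℝ => g (t, x + τ * (y - x)))
      ((y - x) * d2 g (t, x + τ * (y - x))) τ := by
    intro τ _
    have h1 : HasDerivAt (fun τ : ℝ => x + τ * (y - x)) (y - x) τ := by
      simpa using ((hasDerivAt_id τ).mul_const (y - x)).const_add x
    exact ((hasDerivAt_d2 hd t _).comp τ h1).congr_deriv (by ring)
  have := intervalIntegral.integral_eq_sub_of_hasDerivAt h
    (Continuous.intervalIntegrable (by fun_prop) _ _)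
  rw [intervalIntegral.integral_const_mul] at this
  simpa [sl] using this.symm

lemma sl_bound {g : ℝ × ℝ → ℝ} {K : ℝ} (h : ∀ z, |d2 g z| ≤ K) (t x y : ℝ) : |sl g t x y| ≤ K := by
  have := intervalIntegral.norm_integral_le_of_norm_le_const (a := 0) (b := 1) (C := K)
    (f := fun τ => d2 g (t, x + τ * (y - x))) (fun τ _ => h _)
  simpa [sl] using this

lemma prim_smooth (n : ℕ) : ∀ g : ℝ × ℝ → ℝ, ContDiff ℝ n g →
    ContDiff ℝ n (fun z : ℝ × ℝ => ∫ s in (0:ℝ)..z.1, g (s, z.2)) := by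
  induction n with
  | zero =>
    intro g hg
    have hc : Continuous g := hg.continuous
    refine contDiff_zero.2 ?_
    exact intervalIntegral.continuous_parametric_intervalIntegral_of_continuous
      (f := fun (z : ℝ × ℝ) s => g (s, z.2))
      (hc.comp (by fun_prop : Continuous fun q : (ℝ × ℝ) × ℝ => (q.2, q.1.2))) continuous_fst
  | succ n ih =>
    intro g hg
    have hc : Continuous g := hg.continuous
    have hd : Differentiable ℝ g := hg.differentiable (by simp)
    have h2 := contDiff_d2 hg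
    refine joint_smooth (f₁ := g) (hg.of_le (by exact_mod_cast Nat.le_succ n)) (ih _ h2) ?_ ?_
    · intro t a
      exact ((show Continuous fun s => g (s, a) by fun_prop).integral_hasStrictDerivAt 0 t).hasDerivAt
    · intro t a
      have hs := sl_cont h2.continuous
      have key := cara (f := fun b => ∫ s in (0:ℝ)..t, g (s, b))
        (E := fun b => ∫ s in (0:ℝ)..t, sl g s a b) (a := a) ?_ ?_
      · simpa [sl_self] using key
      · apply Continuous.continuousAt
        apply intervalIntegral.continuous_parametric_intervalIntegral_of_continuous'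
        exact hs.comp (by fun_prop : Continuous fun q : ℝ × ℝ => (q.2, a, q.1))
      · intro b
        rw [← intervalIntegral.integral_sub (Continuous.intervalIntegrable (by fun_prop) _ _)
          (Continuous.intervalIntegrable (by fun_prop) _ _), ← intervalIntegral.integral_const_mul]
        simp_rw [sl_eq hd h2.continuous]

lemma exists_sol {m : ℝ × ℝ → ℝ} (hc : Continuous m) {K : NNReal}
    (hL : ∀ t, LipschitzWith K (fun x => m (t, x))) (hb : ∀ z, |m z| ≤ 1) (t₀ x : ℝ) :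
    ∃ y : ℝ → ℝ, y t₀ = x ∧ ∀ t, HasDerivAt y (m (t, y t)) t := by
  have loc : ∀ n : ℕ, ∃ y : ℝ → ℝ, y t₀ = x ∧
      ∀ t ∈ Ioo (t₀ - (n + 1)) (t₀ + (n + 1)), HasDerivAt y (m (t, y t)) t := by
    intro n
    have hn : (0:ℝ) < n + 1 := by positivity
    have hP : IsPicardLindelof (fun t x => m (t, x)) (tmin := t₀ - (n + 1)) (tmax := t₀ + (n + 1))
        ⟨t₀, by constructor <;> linarith⟩ x (n + 1) 0 1 K :=
      { lipschitzOnWith := fun t _ => (hL t).lipschitzOnWith
        continuousOn := fun x _ => Continuous.continuousOn (by fun_prop)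
        norm_le := fun t _ x _ => by simpa using hb (t, x)
        mul_max_le := by simp }
    obtain ⟨y, h0, hy⟩ := hP.exists_eq_forall_mem_Icc_hasDerivWithinAt₀
    exact ⟨y, h0, fun t ht => (hy t (Ioo_subset_Icc_self ht)).hasDerivAt (Icc_mem_nhds ht.1 ht.2)⟩
  choose Y h0 hY using loc
  have cons : ∀ n k : ℕ, n ≤ k → EqOn (Y n) (Y k) (Ioo (t₀ - (n + 1)) (t₀ + (n + 1))) := by
    intro n k hnk
    have hn : (0:ℝ) < n + 1 := by positivity
    have hk : (n:ℝ) ≤ k := by exact_mod_cast hnk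
    refine ODE_solution_unique_of_mem_Ioo (v := fun t x => m (t, x)) (s := fun _ => univ) (K := K)
      (t₀ := t₀) (fun t _ => (hL t).lipschitzOnWith) (by constructor <;> linarith)
      (fun t ht => ⟨hY n t ht, trivial⟩)
      (fun t ht => ⟨hY k t ⟨by linarith [ht.1], by linarith [ht.2]⟩, trivial⟩) (by rw [h0, h0])
  have mem : ∀ t, t ∈ Ioo (t₀ - ((⌈|t - t₀|⌉₊ : ℕ) + 1)) (t₀ + ((⌈|t - t₀|⌉₊ : ℕ) + 1)) := by
    intro t
    have := Nat.le_ceil |t - t₀|
    have h1 := le_abs_self (t - t₀)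
    have h2 := neg_abs_le (t - t₀)
    constructor <;> linarith
  have eq : ∀ n : ℕ, ∀ s ∈ Ioo (t₀ - (n + 1)) (t₀ + (n + 1)), Y ⌈|s - t₀|⌉₊ s = Y n s := by
    intro n s hs
    rw [cons _ _ (le_max_left _ n) (mem s), cons _ _ (le_max_right ⌈|s - t₀|⌉₊ n) hs]
  refine ⟨fun t => Y ⌈|t - t₀|⌉₊ t, h0 _, fun t => ?_⟩
  refine (hY _ t (mem t)).congr_of_eventuallyEq ?_
  filter_upwards [Ioo_mem_nhds (mem t).1 (mem t).2] with s hs using eq _ s hs

lemma abs_sub_le_of_deriv {y y' : ℝ → ℝ} (h : ∀ t, HasDerivAt y (y' t) t) (hb : ∀ t, |y' t| ≤ 1)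
    (s t : ℝ) : |y t - y s| ≤ |t - s| := by
  have := Convex.norm_image_sub_le_of_norm_hasDerivWithin_le (f := y) (f' := y') (C := 1)
    (s := univ) (fun t _ => (h t).hasDerivWithinAt) (fun t _ => hb t) convex_univ
    (mem_univ s) (mem_univ t)
  simpa using this

lemma inv_smooth {E : Type*} [NormedAddCommGroup E] [NormedSpace ℝ E] [FiniteDimensional ℝ E]
    {F : E → E} (hF : ContDiff ℝ ∞ F) (hi : Function.Injective F)
    (hd : ∀ z, Function.Injective (fderiv ℝ F z)) (z : E) :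
    ContDiffAt ℝ ∞ (Function.invFun F) (F z) := by
  have : CompleteSpace E := FiniteDimensional.complete ℝ E
  let e : E ≃L[ℝ] E :=
    (LinearEquiv.ofInjectiveEndo (fderiv ℝ F z).toLinearMap (hd z)).toContinuousLinearEquiv
  have he : HasFDerivAt F (e : E →L[ℝ] E) z :=
    ((hF.differentiable (by simp)) z).hasFDerivAt.congr_fderiv (by ext; rfl)
  have h1 := hF.contDiffAt.to_localInverse (a := z) he (by simp)
  refine h1.congr_of_eventuallyEq ?_
  have h2 := (hF.contDiffAt.hasStrictFDerivAt' (x := z) he (by simp)).eventually_right_inverse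
  filter_upwards [h2] with w hw
  conv_lhs => rw [← hw]
  exact Function.leftInverse_invFun hi _

/-- smooth first integral with initial value the second coordinate -/
structure IsInt (m V : ℝ × ℝ → ℝ) : Prop where
  smooth : ContDiff ℝ ∞ V
  init : ∀ x, V (0, x) = x
  pde : ∀ z, fderiv ℝ V z (1, m z) = 0
  pos : ∀ z, 0 < fderiv ℝ V z (0, 1)
  sol : ∀ t₀ x, ∃ y : ℝ → ℝ, y t₀ = x ∧ ∀ t, HasDerivAt y (m (t, y t)) t

theorem exists_isInt {m : ℝ × ℝ → ℝ} (hm : ContDiff ℝ ∞ m) (hs : HasCompactSupport m)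
    (hb : ∀ z, |m z| ≤ 1) : ∃ V, IsInt m V := by
  have hmn : ∀ n : ℕ, ContDiff ℝ n m := fun n => hm.of_le (by exact_mod_cast le_top)
  have hd : Differentiable ℝ m := hm.differentiable (by simp)
  have h2 : Continuous (d2 m) := (contDiff_d2 (hmn 1)).continuous
  have hc := hm.continuous
  obtain ⟨K, hK⟩ : ∃ K : ℝ, ∀ z, |d2 m z| ≤ K := by
    have : HasCompactSupport (d2 m) := (hs.fderiv ℝ).comp_left (g := fun L : ℝ × ℝ →L[ℝ] ℝ => L (0, 1)) rfl
    obtain ⟨C, hC⟩ := h2.bounded_above_of_compact_support this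
    exact ⟨C, hC⟩
  have hK0 : 0 ≤ K := (abs_nonneg _).trans (hK 0)
  have hL : ∀ t, LipschitzWith ⟨K, hK0⟩ (fun x => m (t, x)) := by
    intro t
    refine LipschitzWith.of_dist_le_mul fun x y => ?_
    rw [Real.dist_eq, Real.dist_eq, sl_eq hd h2, abs_mul, mul_comm]
    exact mul_le_mul_of_nonneg_right (sl_bound hK _ _ _) (abs_nonneg _)
  have hsol := exists_sol hc hL hb
  choose Y h0 hY using hsol 0
  have hYc : ∀ a, Continuous (Y a) := fun a => continuous_iff_continuousAt.2 fun t => (hY a t).continuousAt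
  have hsl := sl_cont h2
  -- the difference of two solutions
  have diff : ∀ a b t, Y b t - Y a t =
      (b - a) * Real.exp (∫ s in (0:ℝ)..t, sl m s (Y a s) (Y b s)) := by
    intro a b t
    have c1 : Continuous fun s => sl m s (Y a s) (Y b s) :=
      hsl.comp (f := fun s => (s, Y a s, Y b s)) (by have := hYc a; have := hYc b; fun_prop)
    have hI : ∀ t, HasDerivAt (fun t => ∫ s in (0:ℝ)..t, sl m s (Y a s) (Y b s))
        (sl m t (Y a t) (Y b t)) t := fun t => (c1.integral_hasStrictDerivAt 0 t).hasDerivAt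
    have hD : ∀ t, HasDerivAt (fun t => (Y b t - Y a t) *
        Real.exp (-∫ s in (0:ℝ)..t, sl m s (Y a s) (Y b s))) 0 t := by
      intro t
      refine (((hY b t).fun_sub (hY a t)).fun_mul (hI t).fun_neg.exp).congr_deriv ?_
      rw [sl_eq hd h2]; ring
    have := is_const_of_deriv_eq_zero (fun t => (hD t).differentiableAt) (fun t => (hD t).deriv) t 0
    simp only [h0, intervalIntegral.integral_same, neg_zero, Real.exp_zero, mul_one] at this
    rw [← this, mul_assoc, ← Real.exp_add]; simp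
  set ψ : ℝ × ℝ → ℝ := fun z => Y z.2 z.1 with hψ
  have ψc : Continuous ψ := by
    refine continuous_iff_continuousAt.2 fun z => ?_
    rw [ContinuousAt, tendsto_iff_norm_sub_tendsto_zero]
    refine squeeze_zero (fun _ => norm_nonneg _)
      (g := fun w : ℝ × ℝ => |w.2 - z.2| * Real.exp (K * |w.1|) + |Y z.2 w.1 - Y z.2 z.1|) ?_ ?_
    · intro w
      have e : ψ w - ψ z = (Y w.2 w.1 - Y z.2 w.1) + (Y z.2 w.1 - Y z.2 z.1) := by simp [hψ]
      rw [Real.norm_eq_abs, e]
      refine (abs_add_le _ _).trans (add_le_add ?_ le_rfl)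
      rw [diff, abs_mul, abs_of_pos (Real.exp_pos _)]
      refine mul_le_mul_of_nonneg_left (Real.exp_le_exp.2 ?_) (abs_nonneg _)
      have := intervalIntegral.norm_integral_le_of_norm_le_const (a := 0) (b := w.1) (C := K)
        (f := fun s => sl m s (Y z.2 s) (Y w.2 s)) (fun τ _ => sl_bound hK _ _ _)
      exact (le_abs_self _).trans (by simpa using this)
    · have : Continuous fun w : ℝ × ℝ =>
          |w.2 - z.2| * Real.exp (K * |w.1|) + |Y z.2 w.1 - Y z.2 z.1| := by
        have := hYc z.2; fun_prop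
      simpa using this.tendsto z
  set E : ℝ × ℝ → ℝ := fun z => Real.exp (∫ s in (0:ℝ)..z.1, d2 m (s, ψ (s, z.2))) with hE
  have D2 : ∀ t a, HasDerivAt (fun b => ψ (t, b)) (E (t, a)) a := by
    intro t a
    have key := cara (f := fun b => ψ (t, b))
      (E := fun b => Real.exp (∫ s in (0:ℝ)..t, sl m s (Y a s) (Y b s))) (a := a) ?_
      (fun b => diff a b t)
    · simpa [sl_self] using key
    · apply Continuous.continuousAt
      apply Real.continuous_exp.comp
      apply intervalIntegral.continuous_parametric_intervalIntegral_of_continuous'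
      exact hsl.comp (f := fun q : ℝ × ℝ => (q.2, ψ (q.2, a), ψ (q.2, q.1))) (by fun_prop)
  have D1 : ∀ t a, HasDerivAt (fun s => ψ (s, a)) (m (t, ψ (t, a))) t := fun t a => hY a t
  have ψn : ∀ n : ℕ, ContDiff ℝ n ψ := by
    intro n
    induction n with
    | zero => exact contDiff_zero.2 ψc
    | succ n ih =>
      refine joint_smooth (f₁ := fun z => m (z.1, ψ z)) (f₂ := E)
        ((hmn n).comp (contDiff_fst.prodMk ih)) ?_ D1 D2
      exact (prim_smooth n (fun z => d2 m (z.1, ψ z))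
        ((contDiff_d2 (hmn (n + 1))).comp (contDiff_fst.prodMk ih))).exp
  have ψs : ContDiff ℝ ∞ ψ := contDiff_infty.2 ψn
  have Ec : Continuous E := ((prim_smooth 0 (fun z => d2 m (z.1, ψ z))
        ((contDiff_d2 (hmn 1)).comp (contDiff_fst.prodMk (ψn 0)))).exp).continuous
  have Epos : ∀ z, 0 < E z := fun z => Real.exp_pos _
  have hψd := joint (f := ψ) (f₁ := fun z => m (z.1, ψ z)) (f₂ := E) (by fun_prop) Ec D1 D2
  set F : ℝ × ℝ → ℝ × ℝ := fun z => (z.1, ψ z) with hF
  have Fs : ContDiff ℝ ∞ F := contDiff_fst.prodMk ψs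
  have Fi : Function.Injective F := by
    rintro ⟨t, a⟩ ⟨t', b⟩ h
    obtain ⟨rfl, h'⟩ := Prod.mk.inj h
    have := diff a b t
    change Y a t = Y b t at h'
    rw [h', sub_self] at this
    have := (mul_eq_zero.1 this.symm).resolve_right (Real.exp_pos _).ne'
    rw [sub_eq_zero.1 this]
  have Fd : ∀ z, Function.Injective (fderiv ℝ F z) := by
    intro z
    rw [(hasFDerivAt_fst.prodMk (hψd z)).fderiv, injective_iff_map_eq_zero]
    rintro ⟨u, v⟩ h
    simp only [ContinuousLinearMap.prod_apply, Prod.mk_eq_zero] at h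
    obtain ⟨h1, h2⟩ := h
    simp at h1 h2
    subst h1
    simp [(Epos z).ne'] at h2
    simp [h2]
  have Fsurj : Function.Surjective F := by
    rintro ⟨t, x⟩
    obtain ⟨y, hy0, hy⟩ := hsol t x
    refine ⟨(t, y 0), ?_⟩
    have : Y (y 0) = y := ODE_solution_unique_univ (v := fun t x => m (t, x)) (s := fun _ => univ)
      (t₀ := 0) (fun t => (hL t).lipschitzOnWith) (fun t => ⟨hY _ t, trivial⟩)
      (fun t => ⟨hy t, trivial⟩) (h0 _)
    simp [hF, hψ, this, hy0]
  set V : ℝ × ℝ → ℝ := fun w => (Function.invFun F w).2 with hV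
  have Vs : ContDiff ℝ ∞ V := by
    refine contDiff_iff_contDiffAt.2 fun w => ?_
    obtain ⟨z, rfl⟩ := Fsurj w
    exact (inv_smooth Fs Fi Fd z).snd
  have VF : ∀ t a, V (t, ψ (t, a)) = a := fun t a => by
    have := Function.leftInverse_invFun Fi (t, a)
    exact congrArg Prod.snd this
  have Vd : Differentiable ℝ V := Vs.differentiable (by simp)
  refine ⟨V, Vs, fun x => by simpa [hψ, h0] using VF 0 x, fun w => ?_, fun w => ?_, hsol⟩
  · obtain ⟨⟨t, a⟩, rfl⟩ := Fsurj w
    have h1 := (Vd (F (t, a))).hasFDerivAt.comp_hasDerivAt t ((hasDerivAt_id t).prodMk (D1 t a))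
    have h3 : HasDerivAt (V ∘ fun s => (id s, ψ (s, a))) 0 t := by
      have : (V ∘ fun s => (id s, ψ (s, a))) = fun _ => a := funext fun s => VF s a
      rw [this]; exact hasDerivAt_const _ _
    exact h1.unique h3
  · obtain ⟨⟨t, a⟩, rfl⟩ := Fsurj w
    have h1 := (Vd (F (t, a))).hasFDerivAt.comp_hasDerivAt a
      ((hasDerivAt_const a t).prodMk (D2 t a))
    have h3 : HasDerivAt (V ∘ fun b => (t, ψ (t, b))) 1 a := by
      have : (V ∘ fun b => (t, ψ (t, b))) = id := funext fun b => VF t b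
      rw [this]; exact hasDerivAt_id _
    have h4 := h1.unique h3
    have h5 : ((0, E (t, a)) : ℝ × ℝ) = E (t, a) • ((0, 1) : ℝ × ℝ) := by simp
    rw [h5, map_smul, smul_eq_mul] at h4
    exact (pos_iff_pos_of_mul_pos (h4 ▸ one_pos)).1 (Epos _)

end Pool.Agent.P.MP_a5fed0_gt
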