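import Pool.Agent.P.MP_a5fed0_gt.Band

/-! The limit net and the diffeomorphism of the plane onto the disc. -/

open Set Filter Topology
open scoped ContDiff

namespace Pool.Agent.P.MP_a5fed0_gt

lemma exists_start : Nonempty St := by
  obtain ⟨V, hV⟩ := exists_isInt (m := fun _ => 0) contDiff_const
    (compact_of_bd (R := 0) (fun _ h => (h rfl).elim)) (fun _ => by simp)
  exact ⟨⟨fun _ => 0, V, 1 / 2, 0, ⟨hV, fun _ => by simp, fun _ _ => by simp, fun _ _ => by simp⟩,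
    contDiff_const, le_rfl, by norm_num, fun _ h => (h rfl).elim, fun _ h => (h rfl).elim⟩⟩

theorem exists_net : ∃ V : ℝ × ℝ → ℝ, ContDiff ℝ ∞ V ∧ (∀ z, |NN V z| < 1) ∧
    (∀ z w : ℝ × ℝ, V z = V w → V (z.2, z.1) = V (w.2, w.1) → z = w) ∧
    (∀ a b : ℝ, |a * b| < 1 → ∃ p q, V (q, p) = a ∧ V (p, q) = b) ∧
    ∀ z : ℝ × ℝ, ∃ μ A B : ℝ, 0 < A ∧ 0 < B ∧ ∀ a b : ℝ, fderiv ℝ V z (a, b) = (b - a * μ) * A ∧
      fderiv ℝ V (z.2, z.1) (a, b) = (b + a * μ) * B := by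
  choose nxt h1 h2 h3 using step
  obtain ⟨S₀⟩ := exists_start
  obtain ⟨S, hS⟩ : ∃ S : ℕ → St, ∀ n, S (n + 1) = nxt (S n) (n + 1) :=
    ⟨fun n => Nat.rec S₀ (fun n T => nxt T (n + 1)) n, fun n => rfl⟩
  have hc : ∀ n, 1 - (1 / 2) ^ n ≤ (S n).c := by
    intro n
    induction n with
    | zero => have := (S 0).c1; norm_num; linarith
    | succ n ih => have := h1 (S n) (n + 1); rw [hS, pow_succ]; linarith
  have stab : ∀ n z, |NN (S n).V z| ≤ (S n).c → ∀ k, n ≤ k →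
      (S k).V z = (S n).V z ∧ (S k).V (z.2, z.1) = (S n).V (z.2, z.1) ∧
        |NN (S k).V z| ≤ (S k).c := by
    intro n z hz k hk
    induction k, hk using Nat.le_induction with
    | base => exact ⟨rfl, rfl, hz⟩
    | succ k _ ih =>
      have e1 := h2 (S k) (k + 1) z ih.2.2
      have e2 := h2 (S k) (k + 1) (z.2, z.1) (by rw [NN_swap]; exact ih.2.2)
      rw [← hS] at e1 e2
      refine ⟨e1.trans ih.1, e2.trans ih.2.1, ?_⟩
      have e3 : NN (S (k + 1)).V z = NN (S k).V z := by simp only [NN, e1, e2]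
      have := h1 (S k) (k + 1)
      have := (S k).c2
      rw [← hS] at *
      rw [e3]; linarith [ih.2.2]
  have ball : ∀ (n : ℕ) (z : ℝ × ℝ), |z.1| + |z.2| ≤ n + 1 → |NN (S (n + 1)).V z| ≤ (S (n + 1)).c :=
    fun n z hz => hS n ▸ h3 (S n) (n + 1) z hz
  set V : ℝ × ℝ → ℝ := fun z => (S (⌈|z.1| + |z.2|⌉₊ + 1)).V z with hV
  have eqV : ∀ (n : ℕ) (z : ℝ × ℝ), |NN (S n).V z| ≤ (S n).c → V z = (S n).V z := by
    intro n z hz
    have b := ball ⌈|z.1| + |z.2|⌉₊ z (by linarith [Nat.le_ceil (|z.1| + |z.2|)])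
    rw [← (stab n z hz _ (le_max_left _ (⌈|z.1| + |z.2|⌉₊ + 1))).1,
      (stab _ z b _ (le_max_right n _)).1]
  have loc : ∀ (n : ℕ) (z : ℝ × ℝ), |z.1| + |z.2| < n + 1 → V =ᶠ[𝓝 z] (S (n + 1)).V := by
    intro n z hz
    have : ∀ᶠ w : ℝ × ℝ in 𝓝 z, |w.1| + |w.2| < n + 1 :=
      (show Continuous fun w : ℝ × ℝ => |w.1| + |w.2| by fun_prop).continuousAt.eventually_lt
        continuousAt_const hz
    filter_upwards [this] with w hw using eqV _ w (ball n w hw.le)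
  have big : ∀ z : ℝ × ℝ, |z.1| + |z.2| < (⌈|z.1| + |z.2|⌉₊ : ℕ) + 1 := fun z => by
    linarith [Nat.le_ceil (|z.1| + |z.2|)]
  refine ⟨V, ?_, fun z => ?_, fun z w e1 e2 => ?_, fun a b hab => ?_, fun z => ?_⟩
  · exact contDiff_iff_contDiffAt.2 fun z =>
      (S _).sym.smooth.contDiffAt.congr_of_eventuallyEq (loc _ z (big z))
  · have b := ball _ z (big z).le
    have e1 := eqV _ z b
    have e2 := eqV _ (z.2, z.1) (by rw [NN_swap]; exact b)
    have := (S (⌈|z.1| + |z.2|⌉₊ + 1)).c2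
    simp only [NN, e1, e2] at b ⊢
    linarith
  · obtain ⟨n, hn⟩ := exists_nat_ge (max (|z.1| + |z.2|) (|w.1| + |w.2|))
    have b1 := ball n z (by linarith [le_max_left (|z.1| + |z.2|) (|w.1| + |w.2|)])
    have b2 := ball n w (by linarith [le_max_right (|z.1| + |z.2|) (|w.1| + |w.2|)])
    rw [eqV _ z b1, eqV _ w b2] at e1
    rw [eqV _ (z.2, z.1) (by rw [NN_swap]; exact b1),
      eqV _ (w.2, w.1) (by rw [NN_swap]; exact b2)] at e2
    exact (S _).sym.inj e1 e2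
  · obtain ⟨n, hn⟩ := exists_pow_lt_of_lt_one (sub_pos.2 hab) (by norm_num : (1 / 2 : ℝ) < 1)
    obtain ⟨p, q, e1, e2⟩ := (S n).sym.surj (S n).bd a b
    have b1 : |NN (S n).V (p, q)| ≤ (S n).c := by
      simp only [NN, e1, e2]; rw [mul_comm]; linarith [hc n]
    exact ⟨p, q, by rw [eqV n _ (by rw [NN_swap]; exact b1), e1], by rw [eqV n _ b1, e2]⟩
  · have l1 := loc _ z (big z)
    have l2 := loc ⌈|z.1| + |z.2|⌉₊ (z.2, z.1) (by simpa [add_comm] using big z)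
    set T := S (⌈|z.1| + |z.2|⌉₊ + 1)
    refine ⟨T.m z, _, _, T.sym.pos z, T.sym.pos (z.2, z.1), fun a b => ?_⟩
    rw [l1.fderiv_eq, l2.fderiv_eq, T.sym.fd z a b, T.sym.fd (z.2, z.1) a b, T.sym.swap z.1 z.2]
    exact ⟨rfl, by simp⟩

/-- the squashing map of the line onto `(-1, 1)` -/
noncomputable def sq1 (s : ℝ) : ℝ := s / √(1 + s ^ 2)

lemma sq1_smooth : ContDiff ℝ ∞ sq1 :=
  contDiff_id.div ((contDiff_const.add (contDiff_id.pow 2)).sqrt fun x => by positivity)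
    fun x => by positivity

lemma sq1_deriv (s : ℝ) : HasDerivAt sq1 (1 / √(1 + s ^ 2) ^ 3) s := by
  have h0 : 0 < 1 + s ^ 2 := by positivity
  have h1 : HasDerivAt (fun s : ℝ => √(1 + s ^ 2)) (2 * s / (2 * √(1 + s ^ 2))) s := by
    simpa using ((hasDerivAt_pow 2 s).const_add 1).sqrt h0.ne'
  have h2 : 0 < √(1 + s ^ 2) := by positivity
  refine ((hasDerivAt_id s).fun_div h1 h2.ne').congr_deriv ?_
  have h3 := Real.sq_sqrt h0.le
  simp only [id]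
  field_simp
  linarith

lemma sq1_sq (s : ℝ) : sq1 s ^ 2 = s ^ 2 / (1 + s ^ 2) := by
  rw [sq1, div_pow, Real.sq_sqrt (by positivity)]

lemma sq1_inj : Function.Injective sq1 :=
  (strictMono_of_hasDerivAt_pos sq1_deriv fun s => by positivity).injective

lemma sq1_surj {u : ℝ} (h : u ^ 2 < 1) : ∃ s, sq1 s = u := by
  have h0 : 0 < 1 - u ^ 2 := by linarith
  have h1 : 0 < √(1 - u ^ 2) := Real.sqrt_pos.2 h0
  refine ⟨u / √(1 - u ^ 2), ?_⟩
  have e : 1 + (u / √(1 - u ^ 2)) ^ 2 = (1 / √(1 - u ^ 2)) ^ 2 := by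
    rw [div_pow, div_pow, Real.sq_sqrt h0.le]; field_simp; ring
  rw [sq1, e, Real.sqrt_sq (by positivity)]; field_simp

lemma sq1_disc (a b : ℝ) : sq1 a ^ 2 + sq1 b ^ 2 < 1 ↔ |a * b| < 1 := by
  rw [sq1_sq, sq1_sq, ← sq_lt_one_iff_abs_lt_one, div_add_div _ _ (by positivity) (by positivity),
    div_lt_one (by positivity)]
  constructor <;> intro h <;> nlinarith

theorem exists_diffeo : ∃ Ψ : ℝ × ℝ → ℝ × ℝ, ContDiff ℝ ∞ Ψ ∧ Function.Injective Ψ ∧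
    range Ψ = {z | z.1 ^ 2 + z.2 ^ 2 < 1} ∧
    ∀ z : ℝ × ℝ, ∃ μ α β : ℝ, 0 < α ∧ 0 < β ∧ ∀ a b : ℝ,
      fderiv ℝ Ψ z (a, b) = (α * (a + b * μ), β * (b - a * μ)) := by
  obtain ⟨V, hs, hN, hi, hsu, hd⟩ := exists_net
  have sw : ContDiff ℝ ∞ fun z : ℝ × ℝ => (z.2, z.1) := contDiff_snd.prodMk contDiff_fst
  refine ⟨fun z => (sq1 (V (z.2, z.1)), sq1 (V z)),
    (sq1_smooth.comp (hs.comp sw)).prodMk (sq1_smooth.comp hs), fun z w h => ?_, ?_, fun z => ?_⟩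
  · obtain ⟨h1, h2⟩ := Prod.mk.inj h
    exact hi z w (sq1_inj h2) (sq1_inj h1)
  · ext ⟨u, v⟩
    constructor
    · rintro ⟨z, hz⟩
      rw [← hz]
      exact (sq1_disc _ _).2 (by rw [mul_comm]; exact hN z)
    · intro h
      change u ^ 2 + v ^ 2 < 1 at h
      obtain ⟨a, rfl⟩ := sq1_surj (u := u) (by nlinarith [sq_nonneg v])
      obtain ⟨b, rfl⟩ := sq1_surj (u := v) (by nlinarith [sq_nonneg (sq1 a)])
      obtain ⟨p, q, e1, e2⟩ := hsu a b ((sq1_disc _ _).1 h)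
      exact ⟨(p, q), by simp [e1, e2]⟩
  · obtain ⟨μ, A, B, hA, hB, e⟩ := hd z
    have dV := hs.differentiable (by simp)
    have d0 := (dV (z.2, z.1)).hasFDerivAt.comp z
      ((hasFDerivAt_snd (𝕜 := ℝ) (p := z)).prodMk (hasFDerivAt_fst (𝕜 := ℝ) (p := z)))
    have d1 := (sq1_deriv (V (z.2, z.1))).comp_hasFDerivAt z d0
    have d2 := (sq1_deriv (V z)).comp_hasFDerivAt z (dV z).hasFDerivAt
    refine ⟨μ, 1 / √(1 + V (z.2, z.1) ^ 2) ^ 3 * B, 1 / √(1 + V z ^ 2) ^ 3 * A, by positivity,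
      by positivity, fun a b => ?_⟩
    have := (d1.prodMk d2).fderiv
    erw [this]
    simp [(e a b).1, (e b a).2]
    constructor <;> ring

end Pool.Agent.P.MP_a5fed0_gt
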