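import Pool.Agent.P.MP_a5fed0_gt.Limit
import Pool.Agent.P.MP_a5fed0_gt.Defs

/-! The metric pulled back from the plane: flatness, length distance, completeness. -/

open Set Filter Topology
open scoped ContDiff

namespace Pool.Agent.P.MP_a5fed0_gt

lemma isOpen_disc : IsOpen disc := isOpen_lt (by fun_prop) continuous_const

lemma sm_at {F : Type*} [NormedAddCommGroup F] [NormedSpace ℝ F] {f : ℝ × ℝ → F}
    (hf : ContDiffOn ℝ ∞ f disc) {z : ℝ × ℝ} (hz : z ∈ disc) : ContDiffAt ℝ ∞ f z :=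
  hf.contDiffAt (isOpen_disc.mem_nhds hz)

lemma sm_has {F : Type*} [NormedAddCommGroup F] [NormedSpace ℝ F] {f : ℝ × ℝ → F}
    (hf : ContDiffOn ℝ ∞ f disc) {z : ℝ × ℝ} (hz : z ∈ disc) : HasFDerivAt f (fderiv ℝ f z) z :=
  ((sm_at hf hz).differentiableAt (by simp)).hasFDerivAt

lemma sm_fderiv {F : Type*} [NormedAddCommGroup F] [NormedSpace ℝ F] {f : ℝ × ℝ → F}
    (hf : ContDiffOn ℝ ∞ f disc) : ContDiffOn ℝ ∞ (fderiv ℝ f) disc :=
  hf.fderiv_of_isOpen isOpen_disc (by simp)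

lemma fd_congr {f g : ℝ × ℝ → ℝ} (h : ∀ w ∈ disc, f w = g w) {z : ℝ × ℝ} (hz : z ∈ disc) :
    fderiv ℝ f z = fderiv ℝ g z :=
  Filter.EventuallyEq.fderiv_eq (by filter_upwards [isOpen_disc.mem_nhds hz] with w hw using h w hw)

lemma du_dv {f : ℝ × ℝ → ℝ} (hf : ContDiffOn ℝ ∞ f disc) {z : ℝ × ℝ} (hz : z ∈ disc) :
    dv (du f) z = du (dv f) z := by
  have h := (sm_at hf hz).isSymmSndFDerivAt (by
    rw [minSmoothness_of_isRCLikeNormedField]; exact WithTop.coe_le_coe.2 (le_top (a := (2 : ℕ∞))))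
  have hd := sm_has (sm_fderiv hf) hz
  have e : ∀ v : ℝ × ℝ, ∀ w, fderiv ℝ (fun z => fderiv ℝ f z v) z w =
      fderiv ℝ (fderiv ℝ f) z w v := fun v w => by
    rw [(hd.clm_apply (hasFDerivAt_const v z)).fderiv]; simp
  exact (e _ _).trans ((h _ _).trans (e _ _).symm)

lemma curv_zero {x y A B μ : ℝ × ℝ → ℝ} (hx : ContDiffOn ℝ ∞ x disc) (hy : ContDiffOn ℝ ∞ y disc)
    (hA : ContDiffOn ℝ ∞ A disc) (hB : ContDiffOn ℝ ∞ B disc) (hμ : ContDiffOn ℝ ∞ μ disc)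
    (A0 : ∀ w ∈ disc, 0 < A w) (B0 : ∀ w ∈ disc, 0 < B w)
    (e1 : ∀ w ∈ disc, du x w = A w) (e2 : ∀ w ∈ disc, du y w = A w * μ w)
    (e3 : ∀ w ∈ disc, dv x w = -(B w * μ w)) (e4 : ∀ w ∈ disc, dv y w = B w)
    {z : ℝ × ℝ} (hz : z ∈ disc) :
    gaussCurv (fun w => A w ^ 2 * (1 + μ w ^ 2)) (fun w => B w ^ 2 * (1 + μ w ^ 2)) z = 0 := by
  set θ : ℝ × ℝ → ℝ := fun w => Real.arctan (μ w) with hθ
  have θs : ContDiffOn ℝ ∞ θ disc := Real.contDiff_arctan.comp_contDiffOn hμ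
  have key : ∀ w ∈ disc,
      dv (fun w => A w ^ 2 * (1 + μ w ^ 2)) w /
        √(A w ^ 2 * (1 + μ w ^ 2) * (B w ^ 2 * (1 + μ w ^ 2))) = -2 * du θ w ∧
      du (fun w => B w ^ 2 * (1 + μ w ^ 2)) w /
        √(A w ^ 2 * (1 + μ w ^ 2) * (B w ^ 2 * (1 + μ w ^ 2))) = 2 * dv θ w := by
    intro w hw
    have a := sm_has hA hw
    have b := sm_has hB hw
    have c := sm_has hμ hw
    have r1 := du_dv hx hw
    have r2 := du_dv hy hw
    rw [dv, du, fd_congr e1 hw, fd_congr e3 hw, (b.fun_mul c).fun_neg.fderiv] at r1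
    rw [dv, du, fd_congr e2 hw, fd_congr e4 hw, (a.fun_mul c).fderiv] at r2
    have hs : √(A w ^ 2 * (1 + μ w ^ 2) * (B w ^ 2 * (1 + μ w ^ 2))) = A w * B w * (1 + μ w ^ 2) := by
      have := A0 w hw
      have := B0 w hw
      rw [Real.sqrt_eq_iff_mul_self_eq (by positivity) (by positivity)]; ring
    have t := ((Real.hasDerivAt_arctan (μ w)).comp_hasFDerivAt w c).fderiv
    have t' : fderiv ℝ θ w = (1 / (1 + μ w ^ 2)) • fderiv ℝ μ w := t
    rw [hs, du, dv, du, dv, t', ((a.pow 2).fun_mul ((c.pow 2).const_add 1)).fderiv,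
      ((b.pow 2).fun_mul ((c.pow 2).const_add 1)).fderiv]
    simp at r1 r2 ⊢
    have := A0 w hw
    have := B0 w hw
    constructor
    · field_simp
      linear_combination r1 + μ w * r2
    · field_simp
      linear_combination (-1) * r2 + μ w * r1
  have d1 := sm_has (sm_fderiv θs) hz
  have h1 : dv (fun w => -2 * du θ w) z = -2 * dv (du θ) z := by
    have := sm_has ((sm_fderiv θs).clm_apply (contDiffOn_const (c := ((1, 0) : ℝ × ℝ)))) hz
    rw [dv, dv]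
    erw [(this.const_mul (-2)).fderiv]
    rfl
  have h2 : du (fun w => 2 * dv θ w) z = 2 * du (dv θ) z := by
    have := sm_has ((sm_fderiv θs).clm_apply (contDiffOn_const (c := ((0, 1) : ℝ × ℝ)))) hz
    rw [du, du]
    erw [(this.const_mul 2).fderiv]
    rfl
  have h3 := fd_congr (fun w hw => (key w hw).1) hz
  have h4 := fd_congr (fun w hw => (key w hw).2) hz
  rw [gaussCurv, dv, du, h3, h4]
  rw [dv] at h1
  rw [du] at h2
  rw [h1, h2, du_dv θs hz]; ring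

lemma dist_eq {E G : ℝ × ℝ → ℝ} {Φ : ℝ × ℝ → ℂ} {Ψ : ℂ → ℝ × ℝ} (hΦ : ContDiffOn ℝ ∞ Φ disc)
    (hΨ : ContDiff ℝ ∞ Ψ) (h1 : ∀ w, Ψ w ∈ disc) (h2 : ∀ w, Φ (Ψ w) = w)
    (h3 : ∀ z ∈ disc, Ψ (Φ z) = z)
    (hm : ∀ z ∈ disc, ∀ a b : ℝ, ‖fderiv ℝ Φ z (a, b)‖ ^ 2 = E z * a ^ 2 + G z * b ^ 2)
    {P Q : ℝ × ℝ} (hP : P ∈ disc) (hQ : Q ∈ disc) : lengthDist E G P Q = dist (Φ P) (Φ Q) := by
  have len : ∀ γ : ℝ → ℝ × ℝ, (∀ t ∈ Icc (0:ℝ) 1, γ t ∈ disc) →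
      pathLength E G γ = ∫ t in (0:ℝ)..1, ‖fderiv ℝ Φ (γ t) (deriv γ t)‖ := by
    intro γ hγ
    refine intervalIntegral.integral_congr fun t ht => ?_
    rw [uIcc_of_le zero_le_one] at ht
    rw [← hm _ (hγ t ht), Real.sqrt_sq (norm_nonneg _)]
  have der : ∀ γ : ℝ → ℝ × ℝ, ContDiff ℝ 1 γ → ∀ t, γ t ∈ disc →
      HasDerivAt (Φ ∘ γ) (fderiv ℝ Φ (γ t) (deriv γ t)) t := fun γ hγ t ht =>
    (sm_has hΦ ht).comp_hasDerivAt t (hγ.differentiable (by simp) t).hasDerivAt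
  refine IsLeast.csInf_eq ⟨?_, ?_⟩
  · set γ : ℝ → ℝ × ℝ := fun t => Ψ (Φ P + t • (Φ Q - Φ P)) with hγ
    have γs : ContDiff ℝ 1 γ :=
      (hΨ.of_le (by simp)).comp (contDiff_const.add (contDiff_id.smul contDiff_const))
    refine ⟨γ, γs, fun t _ => h1 _, by simp [hγ, h3 P hP], by simp [hγ, h3 Q hQ], ?_⟩
    rw [len γ fun t _ => h1 _]
    have e : ∀ t, fderiv ℝ Φ (γ t) (deriv γ t) = Φ Q - Φ P := fun t => by
      refine (der γ γs t (h1 _)).unique ?_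
      have : Φ ∘ γ = fun t : ℝ => Φ P + t • (Φ Q - Φ P) := funext fun t => h2 _
      rw [this]
      simpa using ((hasDerivAt_id t).smul_const (Φ Q - Φ P)).const_add (Φ P)
    simp [e, dist_eq_norm, norm_sub_rev]
  · rintro L ⟨γ, γs, hγ, rfl, rfl, rfl⟩
    rw [len γ hγ, dist_comm, dist_eq_norm]
    have hc : ContinuousOn (fun t => fderiv ℝ Φ (γ t) (deriv γ t)) (uIcc 0 1) := by
      rw [uIcc_of_le zero_le_one]
      exact ((sm_fderiv hΦ).continuousOn.comp γs.continuous.continuousOn hγ).clm_apply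
        (γs.continuous_deriv le_rfl).continuousOn
    have := intervalIntegral.integral_eq_sub_of_hasDerivAt (f := Φ ∘ γ) (a := 0) (b := 1)
      (fun t ht => der γ γs t (hγ t (by rwa [uIcc_of_le zero_le_one] at ht))) hc.intervalIntegrable
    simp only [Function.comp] at this
    rw [← this]
    exact intervalIntegral.norm_integral_le_integral_norm zero_le_one

theorem main : ∃ E G : ℝ × ℝ → ℝ, ContDiffOn ℝ ∞ E disc ∧ ContDiffOn ℝ ∞ G disc ∧
    (∀ z ∈ disc, 0 < E z ∧ 0 < G z) ∧ (∀ z ∈ disc, gaussCurv E G z = 0) ∧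
    (∀ x : ℕ → ℝ × ℝ, (∀ n, x n ∈ disc) →
      (∀ ε > 0, ∃ N, ∀ m ≥ N, ∀ n ≥ N, lengthDist E G (x m) (x n) < ε) →
      ∃ P ∈ disc, Tendsto (fun n => lengthDist E G (x n) P) atTop (𝓝 0)) ∧
    ∃ Φ : ℝ × ℝ → ℂ, ContDiffOn ℝ ∞ Φ disc ∧ BijOn Φ disc univ ∧
      (∀ z ∈ disc, ∀ a b : ℝ, ‖fderiv ℝ Φ z (a, b)‖ ^ 2 = E z * a ^ 2 + G z * b ^ 2) ∧
      ∀ P ∈ disc, ∀ Q ∈ disc, lengthDist E G P Q = dist (Φ P) (Φ Q) := by
  obtain ⟨Ψ, Ψs, Ψi, Ψr, Ψd⟩ := exists_diffeo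
  change range Ψ = disc at Ψr
  set F := Function.invFun Ψ with hF
  have FΨ : ∀ w, F (Ψ w) = w := Function.leftInverse_invFun Ψi
  have ΨF : ∀ z ∈ disc, Ψ (F z) = z := fun z hz => Function.invFun_eq (by rwa [← Ψr] at hz)
  have mem : ∀ w, Ψ w ∈ disc := fun w => Ψr ▸ mem_range_self w
  have Fs : ContDiffOn ℝ ∞ F disc := by
    intro z hz
    rw [← ΨF z hz]
    refine (inv_smooth Ψs Ψi (fun w => ?_) _).contDiffWithinAt
    obtain ⟨μ, α, β, α0, β0, e⟩ := Ψd w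
    rw [injective_iff_map_eq_zero]
    rintro ⟨a, b⟩ h
    rw [e, Prod.mk_eq_zero, mul_eq_zero, mul_eq_zero] at h
    have h1 := h.1.resolve_left α0.ne'
    have h2 := h.2.resolve_left β0.ne'
    have h3 : a * (1 + μ ^ 2) = 0 := by linear_combination h1 - μ * h2
    have h4 : a = 0 := (mul_eq_zero.1 h3).resolve_right (by positivity)
    rw [h4] at h2
    simp at h2
    simp [h4, h2]
  set x : ℝ × ℝ → ℝ := fun z => (F z).1 with hx
  set y : ℝ × ℝ → ℝ := fun z => (F z).2 with hy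
  have xs : ContDiffOn ℝ ∞ x disc := Fs.fst
  have ys : ContDiffOn ℝ ∞ y disc := Fs.snd
  have Fd : ∀ z ∈ disc, ∀ v, fderiv ℝ F z v = (fderiv ℝ x z v, fderiv ℝ y z v) := fun z hz v => by
    rw [(sm_has Fs hz).fst.fderiv, (sm_has Fs hz).snd.fderiv]; rfl
  have frame : ∀ z ∈ disc, 0 < du x z ∧ 0 < dv y z ∧ dv x z = -(dv y z * (du y z / du x z)) := by
    intro z hz
    obtain ⟨μ, α, β, α0, β0, e⟩ := Ψd (F z)
    have h1 := (ΨF z hz).symm ▸ sm_has Fs hz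
    have h2 := (h1.comp (F z) (Ψs.differentiable (by simp) (F z)).hasFDerivAt).unique
      ((funext FΨ : F ∘ Ψ = id) ▸ hasFDerivAt_id (F z))
    rw [ΨF z hz] at h2
    have h3 : ∀ a b : ℝ, fderiv ℝ F z (α * (a + b * μ), β * (b - a * μ)) = (a, b) := fun a b => by
      rw [← e]; exact DFunLike.congr_fun h2 (a, b)
    have h4 := h3 1 μ
    have h5 := h3 (-μ) 1
    have p : 0 < 1 + μ * μ := by nlinarith [mul_self_nonneg μ]
    rw [show ((α * (1 + μ * μ), β * (μ - 1 * μ)) : ℝ × ℝ) = (α * (1 + μ * μ)) • (1, 0) by simp,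
      map_smul, Fd z hz] at h4
    rw [show ((α * (-μ + 1 * μ), β * (1 - -μ * μ)) : ℝ × ℝ) = (β * (1 + μ * μ)) • (0, 1) by simp,
      map_smul, Fd z hz] at h5
    simp only [Prod.smul_mk, smul_eq_mul, Prod.mk.injEq] at h4 h5
    have pa : 0 < α * (1 + μ * μ) := mul_pos α0 p
    have pb : 0 < β * (1 + μ * μ) := mul_pos β0 p
    have k1 : du x z = 1 / (α * (1 + μ * μ)) := by rw [eq_div_iff pa.ne', mul_comm]; exact h4.1
    have k2 : du y z = μ / (α * (1 + μ * μ)) := by rw [eq_div_iff pa.ne', mul_comm]; exact h4.2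
    have k3 : dv x z = -μ / (β * (1 + μ * μ)) := by rw [eq_div_iff pb.ne', mul_comm]; exact h5.1
    have k4 : dv y z = 1 / (β * (1 + μ * μ)) := by rw [eq_div_iff pb.ne', mul_comm]; exact h5.2
    rw [k1, k2, k3, k4]
    refine ⟨by positivity, by positivity, by field_simp⟩
  set μ : ℝ × ℝ → ℝ := fun z => du y z / du x z with hμ
  have As : ContDiffOn ℝ ∞ (du x) disc := (sm_fderiv xs).clm_apply contDiffOn_const
  have Bs : ContDiffOn ℝ ∞ (dv y) disc := (sm_fderiv ys).clm_apply contDiffOn_const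
  have μs : ContDiffOn ℝ ∞ μ disc :=
    ContDiffOn.div ((sm_fderiv ys).clm_apply contDiffOn_const) As fun z hz => (frame z hz).1.ne'
  have e2 : ∀ w ∈ disc, du y w = du x w * μ w := fun w hw => by
    have := (frame w hw).1
    simp only [hμ]; field_simp
  set L := Complex.equivRealProdCLM with hL
  have Φs : ContDiffOn ℝ ∞ (L.symm ∘ F) disc := L.symm.contDiff.comp_contDiffOn Fs
  have hm : ∀ z ∈ disc, ∀ a b : ℝ, ‖fderiv ℝ (L.symm ∘ F) z (a, b)‖ ^ 2 =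
      du x z ^ 2 * (1 + μ z ^ 2) * a ^ 2 + dv y z ^ 2 * (1 + μ z ^ 2) * b ^ 2 := by
    intro z hz a b
    rw [(L.symm.hasFDerivAt.comp z (sm_has Fs hz)).fderiv]
    have e : ((a, b) : ℝ × ℝ) = a • ((1, 0) : ℝ × ℝ) + b • ((0, 1) : ℝ × ℝ) := by simp
    have k : fderiv ℝ F z (a, b) = (a * du x z + b * dv x z, a * du y z + b * dv y z) := by
      rw [e, map_add, map_smul, map_smul, Fd z hz, Fd z hz]; rfl
    change ‖L.symm (fderiv ℝ F z (a, b))‖ ^ 2 = _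
    rw [k, hL, Complex.equivRealProdCLM_symm_apply, Complex.sq_norm, Complex.normSq_add_mul_I,
      e2 z hz, (frame z hz).2.2]
    simp only [hμ]; ring
  have hd := fun P hP Q hQ => dist_eq (Φ := L.symm ∘ F) (Ψ := Ψ ∘ L) Φs (Ψs.comp L.contDiff)
    (fun w => mem _) (fun w => by simp [FΨ]) (fun z hz => by simp [ΨF z hz]) hm (P := P) (Q := Q) hP hQ
  refine ⟨_, _, (As.pow 2).mul (contDiffOn_const.add (μs.pow 2)),
    (Bs.pow 2).mul (contDiffOn_const.add (μs.pow 2)), fun z hz => ?_,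
    fun z hz => curv_zero xs ys As Bs μs (fun w hw => (frame w hw).1) (fun w hw => (frame w hw).2.1)
      (fun _ _ => rfl) e2 (fun w hw => (frame w hw).2.2) (fun _ _ => rfl) hz,
    fun s hs hc => ?_, L.symm ∘ F, Φs, ⟨mapsTo_univ _ _, fun z hz w hw h => ?_, fun w _ => ?_⟩, hm, hd⟩
  · have := (frame z hz).1
    have := (frame z hz).2.1
    constructor <;> positivity
  · have : CauchySeq fun n => (L.symm ∘ F) (s n) := Metric.cauchySeq_iff.2 fun ε hε => by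
      obtain ⟨N, hN⟩ := hc ε hε
      exact ⟨N, fun m hm n hn => by rw [← hd _ (hs m) _ (hs n)]; exact hN m hm n hn⟩
    obtain ⟨w, hw⟩ := cauchySeq_tendsto_of_complete this
    refine ⟨Ψ (L w), mem _, ?_⟩
    simp only [hd _ (hs _) _ (mem _)]
    simpa [FΨ] using tendsto_iff_dist_tendsto_zero.1 hw
  · rw [← ΨF z hz, ← ΨF w hw, L.symm.injective h]
  · exact ⟨Ψ (L w), mem _, by simp [FΨ]⟩

end Pool.Agent.P.MP_a5fed0_gt
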