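import Pool.Agent.P.MP_a5fed0_gt.Flow

/-! Symmetric slope fields and their pair of first integrals. -/

open Set Filter Topology
open scoped ContDiff

namespace Pool.Agent.P.MP_a5fed0_gt

lemma mvt_le {f f' : ℝ → ℝ} (h : ∀ t, HasDerivAt f (f' t) t) {a b l : ℝ} (hab : a ≤ b)
    (hl : ∀ t ∈ Icc a b, l ≤ f' t) : l * (b - a) ≤ f b - f a := by
  rcases hab.eq_or_lt with rfl | hab
  · simp
  obtain ⟨t, ht, e⟩ := exists_hasDerivAt_eq_slope f f' hab
    (fun t _ => (h t).continuousAt.continuousWithinAt) (fun t _ => h t)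
  have := hl t (Ioo_subset_Icc_self ht)
  rwa [e, le_div_iff₀ (sub_pos.2 hab)] at this

lemma mvt_zero {f f' : ℝ → ℝ} (h : ∀ t, HasDerivAt f (f' t) t) {a b : ℝ} (hab : a ≤ b)
    (hl : ∀ t ∈ Icc a b, f' t = 0) : f b = f a := by
  have h1 := mvt_le h hab (l := 0) (fun t ht => (hl t ht).ge)
  have h2 := mvt_le (fun t => (h t).fun_neg) hab (l := 0) (fun t ht => by simp [hl t ht])
  linarith

lemma abs_red {f : ℝ × ℝ → ℝ} (hp : ∀ p q, f (-p, q) = -f (p, q)) (hq : ∀ p q, f (p, -q) = -f (p, q))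
    (p q : ℝ) : |f (p, q)| = |f (|p|, |q|)| := by
  rcases abs_choice p with h | h <;> rcases abs_choice q with h' | h' <;> rw [h, h'] <;>
    simp [hp, hq]

/-- product of the two first integrals -/
def NN (V : ℝ × ℝ → ℝ) (z : ℝ × ℝ) : ℝ := V z * V (z.2, z.1)

lemma NN_swap (V : ℝ × ℝ → ℝ) (p q : ℝ) : NN V (q, p) = NN V (p, q) := mul_comm _ _

/-- a symmetric slope field together with its first integral -/
structure Sym (m V : ℝ × ℝ → ℝ) : Prop extends IsInt m V where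
  lt : ∀ z, |m z| < 1
  odd : ∀ p q, m (-p, q) = -m (p, q)
  swap : ∀ p q, m (q, p) = -m (p, q)

lemma IsInt.along {m V : ℝ × ℝ → ℝ} (h : IsInt m V) {y y' : ℝ → ℝ} (hy : ∀ t, HasDerivAt y (y' t) t)
    {a b : ℝ} (hab : a ≤ b) (he : ∀ t ∈ Icc a b, y' t = m (t, y t)) : V (b, y b) = V (a, y a) := by
  refine mvt_zero (f := fun t => V (t, y t)) (f' := fun t => fderiv ℝ V (t, y t) (1, y' t))
    (fun t => ?_) hab (fun t ht => by rw [he t ht]; exact h.pde _)
  exact (h.smooth.differentiable (by simp) _).hasFDerivAt.comp_hasDerivAt t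
    ((hasDerivAt_id t).prodMk (hy t))

lemma IsInt.val {m V : ℝ × ℝ → ℝ} (h : IsInt m V) {y : ℝ → ℝ}
    (hy : ∀ t, HasDerivAt y (m (t, y t)) t) (t : ℝ) : V (t, y t) = y 0 := by
  rcases le_total 0 t with ht | ht
  · rw [h.along hy ht (fun _ _ => rfl), h.init]
  · rw [← h.along hy ht (fun _ _ => rfl), h.init]

lemma IsInt.mono {m V : ℝ × ℝ → ℝ} (h : IsInt m V) (p : ℝ) : StrictMono fun q => V (p, q) :=
  strictMono_of_hasDerivAt_pos (fun q => hasDerivAt_d2 (h.smooth.differentiable (by simp)) p q)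
    (fun _ => h.pos _)

namespace Sym
variable {m V : ℝ × ℝ → ℝ} (h : Sym m V)
include h

lemma odd2 (p q : ℝ) : m (p, -q) = -m (p, q) := by rw [h.swap, h.odd, h.swap]; simp

lemma V_neg1 (p q : ℝ) : V (-p, q) = V (p, q) := by
  obtain ⟨y, h0, hy⟩ := h.sol p q
  have h1 : ∀ t, HasDerivAt (fun t => y (-t)) (m (t, y (-t))) t := fun t =>
    ((hy (-t)).comp t (hasDerivAt_neg t)).congr_deriv (by rw [h.odd]; ring)
  have e1 := h.toIsInt.val h1 (-p)
  have e2 := h.toIsInt.val hy p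
  simp only [neg_neg, neg_zero, h0] at e1 e2
  rw [e1, e2]

lemma V_neg2 (p q : ℝ) : V (p, -q) = -V (p, q) := by
  obtain ⟨y, h0, hy⟩ := h.sol p q
  have h1 : ∀ t, HasDerivAt (fun t => -y t) (m (t, -y t)) t := fun t =>
    (hy t).fun_neg.congr_deriv (by rw [h.odd2])
  have e1 := h.toIsInt.val h1 p
  have e2 := h.toIsInt.val hy p
  simp only [h0] at e1 e2
  rw [e1, e2]

lemma V_zero (p : ℝ) : V (p, 0) = 0 := by
  have := h.V_neg2 p 0
  rw [neg_zero] at this; linarith

lemma V_nonneg (p : ℝ) {q : ℝ} (hq : 0 ≤ q) : 0 ≤ V (p, q) := by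
  have := (h.toIsInt.mono p).monotone hq
  simpa [h.V_zero] using this

lemma nonneg_of_V {p q : ℝ} (hq : 0 ≤ V (p, q)) : 0 ≤ q := by
  by_contra hn
  have := h.toIsInt.mono p (not_le.1 hn)
  simp only [h.V_zero] at this; linarith

lemma V_sub (p q : ℝ) : |V (p, q) - q| ≤ |p| := by
  obtain ⟨y, h0, hy⟩ := h.sol p q
  have e2 := h.toIsInt.val hy p
  have := abs_sub_le_of_deriv hy (fun t => (h.lt _).le) p 0
  rw [h0] at e2 this
  simpa [e2] using this

lemma V_le {p q : ℝ} (hp : 0 ≤ p) : V (p, q) ≤ p + q := by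
  have := h.V_sub p q
  rw [abs_of_nonneg hp] at this
  linarith [le_abs_self (V (p, q) - q)]

lemma N_neg1 (p q : ℝ) : NN V (-p, q) = -NN V (p, q) := by simp [NN, h.V_neg1, h.V_neg2]
lemma N_neg2 (p q : ℝ) : NN V (p, -q) = -NN V (p, q) := by simp [NN, h.V_neg1, h.V_neg2]

lemma N_nonneg {p q : ℝ} (hp : 0 ≤ p) (hq : 0 ≤ q) : 0 ≤ NN V (p, q) :=
  mul_nonneg (h.V_nonneg _ hq) (h.V_nonneg _ hp)

lemma N_abs (p q : ℝ) : |NN V (p, q)| = NN V (|p|, |q|) := by
  rw [abs_red h.N_neg1 h.N_neg2, abs_of_nonneg (h.N_nonneg (abs_nonneg _) (abs_nonneg _))]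

lemma N_smooth : ContDiff ℝ ∞ (NN V) :=
  h.smooth.mul (h.smooth.comp (contDiff_snd.prodMk contDiff_fst))

lemma fd (z : ℝ × ℝ) (a b : ℝ) :
    fderiv ℝ V z (a, b) = (b - a * m z) * fderiv ℝ V z (0, 1) := by
  have e : ((a, b) : ℝ × ℝ) = a • ((1, m z) : ℝ × ℝ) + (b - a * m z) • ((0, 1) : ℝ × ℝ) := by simp
  rw [e, map_add, map_smul, map_smul, h.pde]; simp

lemma U_mono {y : ℝ → ℝ} (hy : ∀ t, HasDerivAt y (m (t, y t)) t) :
    StrictMono fun t => V (y t, t) := by
  refine strictMono_of_hasDerivAt_pos (f' := fun t => fderiv ℝ V (y t, t) (m (t, y t), 1))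
    (fun t => (h.smooth.differentiable (by simp) _).hasFDerivAt.comp_hasDerivAt t
      ((hy t).prodMk (hasDerivAt_id t))) (fun t => ?_)
  rw [h.fd, h.swap]
  exact mul_pos (by nlinarith [sq_nonneg (m (y t, t))]) (h.pos _)

/-- in the zone where the field vanishes the first integral does not depend on the first variable -/
lemma zone {c : ℝ} (hs : ∀ z, m z ≠ 0 → |NN V z| < c) {p q p' : ℝ} (hq : 0 ≤ q)
    (hN : c ≤ NN V (p, q)) (hp : p ≤ p') : V (p', q) = V (p, q) := by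
  obtain ⟨y, h0, hy⟩ := h.sol p q
  have e := h.toIsInt.val hy
  have e1 : ∀ t, V (t, y t) = V (p, q) := fun t => by rw [e t, ← e p, h0]
  have hz : ∀ t ∈ Icc p p', m (t, y t) = 0 := by
    intro t ht
    by_contra hne
    have h1 := hs _ hne
    have h2 : V (y p, p) ≤ V (y t, t) := (h.U_mono hy).monotone ht.1
    have h3 : NN V (p, q) ≤ NN V (t, y t) := by
      simp only [NN, e1 t]
      rw [h0] at h2
      exact mul_le_mul_of_nonneg_left h2 (h.V_nonneg _ hq)
    linarith [le_abs_self (NN V (t, y t))]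
  have := mvt_zero hy hp hz
  rw [← e1 p', this, h0]

/-- changing the field off the region `|N| ≤ c` does not change the first integral there -/
lemma agree {m' V' : ℝ × ℝ → ℝ} (h' : Sym m' V') {c : ℝ} (he : ∀ z, |NN V z| ≤ c → m' z = m z)
    (z : ℝ × ℝ) (hz : |NN V z| ≤ c) : V' z = V z := by
  obtain ⟨p, q⟩ := z
  wlog hp : 0 ≤ p generalizing p
  · have := this (-p) (by rwa [h.N_neg1, abs_neg]) (by linarith [not_le.1 hp])
    rwa [h.V_neg1, h'.V_neg1] at this
  obtain ⟨y, h0, hy⟩ := h.sol p q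
  have e := h.toIsInt.val hy
  have e1 : ∀ t, V (t, y t) = V (p, q) := fun t => by rw [e t, ← e p, h0]
  have := h'.toIsInt.along hy hp (fun t ht => (he _ ?_).symm)
  · rw [h0, h'.init] at this
    rw [this, ← e p, h0]
  · refine le_trans ?_ hz
    have h2 : V (y t, t) ≤ V (y p, p) := (h.U_mono hy).monotone ht.2
    rw [h0] at h2
    simp only [NN, e1 t, abs_mul]
    refine mul_le_mul_of_nonneg_left ?_ (abs_nonneg _)
    rw [abs_of_nonneg (h.V_nonneg _ ht.1), abs_of_nonneg (h.V_nonneg _ hp)]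
    exact h2

lemma inj {z w : ℝ × ℝ} (h1 : V z = V w) (h2 : V (z.2, z.1) = V (w.2, w.1)) : z = w := by
  obtain ⟨p, q⟩ := z
  obtain ⟨p', q'⟩ := w
  obtain ⟨y, h0, hy⟩ := h.sol p q
  have e := h.toIsInt.val hy
  have e1 : V (p', y p') = V (p', q') := by rw [e, ← e p, h0, h1]
  have e2 : y p' = q' := (h.toIsInt.mono p').injective e1
  have e3 : p = p' := (h.U_mono hy).injective (by simpa [h0, e2] using h2)
  subst e3
  rw [← e2, h0]

lemma surj {R : ℝ} (hR : ∀ z : ℝ × ℝ, m z ≠ 0 → |z.1| + |z.2| ≤ R) (a b : ℝ) :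
    ∃ p q, V (q, p) = a ∧ V (p, q) = b := by
  wlog ha : 0 ≤ a generalizing a
  · obtain ⟨p, q, h1, h2⟩ := this (-a) (by linarith [not_le.1 ha])
    exact ⟨-p, q, by rw [h.V_neg2, h1, neg_neg], by rw [h.V_neg1, h2]⟩
  obtain ⟨y, h0, hy⟩ := h.sol 0 b
  have e := h.toIsInt.val hy
  set S := |R| + 1 with hS
  set T := S + S + |b| + a with hT
  have hS0 : 0 < S := by positivity
  have hST : S ≤ T := by have := abs_nonneg b; linarith
  have h1 : y T = y S := mvt_zero hy hST (fun t ht => by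
    by_contra hne
    have := hR _ hne
    have h3 := le_abs_self t
    have h4 := le_abs_self R
    have h5 := abs_nonneg (y t)
    simp only at this
    linarith [ht.1])
  have h2 := abs_sub_le_of_deriv hy (fun t => (h.lt _).le) 0 S
  rw [h0, sub_zero, abs_of_pos hS0] at h2
  have h3 := h.V_sub (y T) T
  have h4 : |y T| ≤ S + |b| := by
    rw [h1]
    have := abs_add_le (y S - b) b
    simp only [sub_add_cancel] at this
    linarith
  have h5 : a ≤ V (y T, T) := by linarith [neg_abs_le (V (y T, T) - T)]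
  have hc : Continuous fun t => V (y t, t) := by
    have : Continuous y := continuous_iff_continuousAt.2 fun t => (hy t).continuousAt
    have := h.smooth.continuous
    fun_prop
  obtain ⟨t, -, ht⟩ := intermediate_value_Icc (hS0.le.trans hST) hc.continuousOn
    (show a ∈ Icc (V (y 0, 0)) (V (y T, T)) from ⟨by rwa [h.V_zero], h5⟩)
  exact ⟨t, y t, ht, by rw [e, h0]⟩

end Sym

end Pool.Agent.P.MP_a5fed0_gt
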